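import Mathlib

set_option autoImplicit false

/-!
Basic notions for MP_f6e863_co: morphisms on a finite alphabet (as maps `α → List α`), their powers,
the reversed morphism, and languages (sets of lists) that are factorial, closed under reversal and
uniformly recurrent.
-/

namespace Pool.Agent.Helper78.Pal

variable {α : Type}

/-- The reversed morphism: every letter image is reversed. -/
def rv (φ : α → List α) : α → List α := fun a => (φ a).reverse

/-- The `n`-th power of the morphism `φ`. -/
def pw (φ : α → List α) : ℕ → α → List α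
  | 0 => fun a => [a]
  | n + 1 => fun a => (pw φ n a).flatMap φ

/-- A factorial, reversal closed, uniformly recurrent infinite language. -/
structure Lang (L : Set (List α)) : Prop where
  infix_mem : ∀ {v w : List α}, v <:+: w → w ∈ L → v ∈ L
  reverse_mem : ∀ {w : List α}, w ∈ L → w.reverse ∈ L
  recur : ∀ w ∈ L, ∃ N : ℕ, ∀ v ∈ L, N ≤ v.length → w <:+: v
  long : ∀ n : ℕ, ∃ w ∈ L, n ≤ w.length

/-- `ψ` and its reversal are conjugate on the language `L`, with shift `P ≥ 0`. -/
def Conj (L : Set (List α)) (ψ : α → List α) (P : ℕ) : Prop :=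
  ∀ v ∈ L, ∀ j : ℕ, j + P < (v.flatMap ψ).length →
    (v.flatMap ψ)[j + P]? = (v.flatMap (rv ψ))[j]?

theorem rv_rv (φ : α → List α) : rv (rv φ) = φ := by
  funext a; simp [rv]

theorem flatMap_pw_zero (φ : α → List α) (w : List α) : w.flatMap (pw φ 0) = w := by
  simp [pw]

theorem flatMap_pw_succ (φ : α → List α) (n : ℕ) (w : List α) :
    w.flatMap (pw φ (n + 1)) = (w.flatMap (pw φ n)).flatMap φ := by
  simp only [pw]
  rw [List.flatMap_assoc]

theorem flatMap_pw_add (φ : α → List α) (m n : ℕ) (w : List α) :
    w.flatMap (pw φ (m + n)) = (w.flatMap (pw φ m)).flatMap (pw φ n) := by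
  induction n with
  | zero => simp [flatMap_pw_zero]
  | succ n ih => rw [← add_assoc, flatMap_pw_succ, ih, flatMap_pw_succ]

theorem pw_add (φ : α → List α) (m n : ℕ) (a : α) :
    pw φ (m + n) a = (pw φ m a).flatMap (pw φ n) := by
  have := flatMap_pw_add φ m n [a]
  simpa using this

theorem flatMap_rv (φ : α → List α) (w : List α) :
    w.flatMap (rv φ) = (w.reverse.flatMap φ).reverse := by
  induction w with
  | nil => simp
  | cons a w ih => simp [rv, List.flatMap_append] at ih ⊢; rw [ih]

theorem reverse_flatMap' (φ : α → List α) (w : List α) :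
    (w.flatMap φ).reverse = w.reverse.flatMap (rv φ) := by
  rw [flatMap_rv]; simp

theorem pw_rv (φ : α → List α) (n : ℕ) : pw (rv φ) n = rv (pw φ n) := by
  induction n with
  | zero => funext a; simp [pw, rv]
  | succ n ih =>
    funext a
    simp only [pw, ih]
    rw [flatMap_rv]
    simp [rv]

theorem length_flatMap_rv (φ : α → List α) (w : List α) :
    (w.flatMap (rv φ)).length = (w.flatMap φ).length := by
  induction w with
  | nil => simp
  | cons a w ih => simp [rv] at ih ⊢

theorem length_flatMap_reverse (φ : α → List α) (w : List α) :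
    (w.reverse.flatMap φ).length = (w.flatMap φ).length := by
  rw [← length_flatMap_rv φ w, flatMap_rv, List.length_reverse]

theorem iterate_eq (φ : α → List α) (n : ℕ) (w : List α) :
    (fun w : List α => w.flatMap φ)^[n] w = w.flatMap (pw φ n) := by
  induction n generalizing w with
  | zero => simp [flatMap_pw_zero]
  | succ n ih =>
    rw [Function.iterate_succ_apply', ih, flatMap_pw_succ]

theorem infix_flatMap {φ : α → List α} {v w : List α} (h : v <:+: w) :
    v.flatMap φ <:+: w.flatMap φ := by
  obtain ⟨s, t, rfl⟩ := h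
  exact ⟨s.flatMap φ, t.flatMap φ, by simp [List.flatMap_append]⟩

theorem length_le_flatMap {φ : α → List α} (hφ : ∀ a, 1 ≤ (φ a).length) (w : List α) :
    w.length ≤ (w.flatMap φ).length := by
  induction w with
  | nil => simp
  | cons a w ih =>
    simp only [List.length_cons, List.flatMap_cons, List.length_append]
    have := hφ a; omega

namespace Lang

variable {L : Set (List α)} (hL : Lang L)
include hL

/-- Two-sided extension by arbitrarily long words. -/
theorem extend {w : List α} (hw : w ∈ L) (n : ℕ) :
    ∃ x y : List α, x ++ w ++ y ∈ L ∧ n ≤ x.length ∧ n ≤ y.length := by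
  obtain ⟨N, hN⟩ := hL.recur w hw
  obtain ⟨v, hv, hlen⟩ := hL.long (N + 2 * n)
  -- v = v1 ++ v2 ++ v3, |v1| = n, |v2| = N, |v3| ≥ n
  have h1 : v = v.take n ++ ((v.drop n).take N ++ (v.drop n).drop N) := by
    rw [List.take_append_drop, List.take_append_drop]
  have hv2 : (v.drop n).take N ∈ L := by
    apply hL.infix_mem _ hv
    exact ⟨v.take n, (v.drop n).drop N, by rw [List.append_assoc]; exact h1.symm⟩
  have hlen2 : N ≤ ((v.drop n).take N).length := by
    simp; omega
  obtain ⟨s, t, hst⟩ := hN _ hv2 hlen2
  refine ⟨v.take n ++ s, t ++ (v.drop n).drop N, ?_, ?_, ?_⟩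
  · have : v.take n ++ s ++ w ++ (t ++ (v.drop n).drop N) = v := by
      conv_rhs => rw [h1, ← hst]
      simp [List.append_assoc]
    rw [this]; exact hv
  · simp; omega
  · simp; omega

theorem extend_right {w : List α} (hw : w ∈ L) : ∃ b, w ++ [b] ∈ L := by
  obtain ⟨x, y, h, _, hy⟩ := hL.extend hw 1
  cases y with
  | nil => simp at hy
  | cons b y =>
    refine ⟨b, hL.infix_mem ⟨x, y, ?_⟩ h⟩
    simp [List.append_assoc]

end Lang

end Pool.Agent.Helper78.Pal
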