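import Pool.Agent.Helper78.Pal.Parity2

set_option autoImplicit false

/-!
From conjugacy of a high power of `φ` with its reversal to a long palindrome.
-/

namespace Pool.Agent.Helper78.Pal

variable {α : Type}

theorem closed_pw {L : Set (List α)} {φ : α → List α} (hcl : ∀ w ∈ L, w.flatMap φ ∈ L) (n : ℕ) :
    ∀ w ∈ L, w.flatMap (pw φ n) ∈ L := by
  induction n with
  | zero => intro w hw; rw [flatMap_pw_zero]; exact hw
  | succ n ih => intro w hw; rw [flatMap_pw_succ]; exact hcl _ (ih w hw)

theorem head_pw_add {φ : α → List α} (hne : ∀ n a, pw φ n a ≠ []) {b b' : α} {i : ℕ} (j : ℕ)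
    (h : (pw φ i b).head? = (pw φ i b').head?) {M : ℕ} (hM : ∀ a, M ≤ (pw φ j a).length) :
    (pw φ (i + j) b).take M = (pw φ (i + j) b').take M := by
  rw [pw_add, pw_add]
  cases h1 : pw φ i b with
  | nil => exact absurd h1 (hne i b)
  | cons c t =>
    cases h2 : pw φ i b' with
    | nil => exact absurd h2 (hne i b')
    | cons c' t' =>
      rw [h1, h2] at h
      simp only [List.head?_cons, Option.some.injEq] at h
      subst h
      rw [List.flatMap_cons, List.flatMap_cons, List.take_append_of_le_length (hM c),
        List.take_append_of_le_length (hM c)]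

theorem head_eq_of_take {l l' : List α} {M : ℕ} (hM : 1 ≤ M) (h : l.take M = l'.take M) :
    l.head? = l'.head? := by
  have h1 : (l.take M)[0]? = l[0]? := List.getElem?_take_of_lt (by omega)
  have h2 : (l'.take M)[0]? = l'[0]? := List.getElem?_take_of_lt (by omega)
  rw [List.head?_eq_getElem?, List.head?_eq_getElem?, ← h1, ← h2, h]

/-- Step 2 and Step 3 combined. -/
theorem step23 [Finite α] {L : Set (List α)} (hL : Lang L) {φ : α → List α}
    (hcl : ∀ w ∈ L, w.flatMap φ ∈ L)
    (hgrow : ∀ N, ∃ n0, ∀ n ≥ n0, ∀ a, N ≤ (pw φ n a).length)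
    (hne : ∀ n a, pw φ n a ≠ []) (M : ℕ) (hM : 1 ≤ M) :
    ∃ k0, ∀ k ≥ k0, ∀ P, Conj L (pw φ k) P → ∃ w ∈ L, w.reverse = w ∧ M ≤ w.length := by
  classical
  obtain ⟨n1, hn1⟩ := hgrow M
  -- the bound `i0`
  let I : α × α → ℕ := fun p => if h : ∃ i, (pw φ i p.1).head? = (pw φ i p.2).head?
    then h.choose else 0
  obtain ⟨i0, hi0⟩ := (Set.finite_range I).bddAbove
  have hI : ∀ b b', (∃ i, (pw φ i b).head? = (pw φ i b').head?) →
      (pw φ i0 b).head? = (pw φ i0 b').head? := by
    intro b b' h
    have h1 : I (b, b') ≤ i0 := hi0 ⟨(b, b'), rfl⟩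
    have h2 : (pw φ (I (b, b')) b).head? = (pw φ (I (b, b')) b').head? := by
      simp only [I]
      rw [dif_pos h]
      exact h.choose_spec
    have h3 := head_pw_add hne (i0 - I (b, b')) h2 (M := 1) (fun a => by
      have := hne (i0 - I (b, b')) a
      exact List.length_pos_iff.mpr this)
    rw [Nat.add_sub_cancel' h1] at h3
    exact head_eq_of_take le_rfl h3
  refine ⟨i0 + n1, fun k hk P hc => ?_⟩
  obtain ⟨w1, hw1, hw1l⟩ := hL.long 1
  rcases Nat.eq_zero_or_pos P with hP | hP
  · subst hP
    cases w1 with
    | nil => simp at hw1l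
    | cons a t =>
      have ha : [a] ∈ L := hL.infix_mem ⟨[], t, by simp⟩ hw1
      refine ⟨pw φ k a, ?_, ?_, hn1 k (by omega) a⟩
      · have := closed_pw hcl k _ ha
        simpa using this
      · apply List.ext_getElem?
        intro j
        by_cases hj : j < (pw φ k a).length
        · have := hc _ ha j (by simpa using hj)
          simp only [List.flatMap_cons, List.flatMap_nil, List.append_nil, Nat.add_zero, rv] at this
          exact this.symm
        · rw [List.getElem?_eq_none (by rw [List.length_reverse]; omega),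
            List.getElem?_eq_none (by omega)]
  · have key : ∀ a b b', [a, b] ∈ L → [a, b'] ∈ L →
        (pw φ i0 b).head? = (pw φ i0 b').head? := by
      obtain ⟨j, hj⟩ := hgrow P
      have hj2 : ∀ a, P ≤ (pw φ (j + k) a).length := fun a => hj (j + k) (by omega) a
      have main : ∀ a b, [a, b] ∈ L → (pw φ (j + k) b).head? =
          ((pw φ j a).flatMap (rv (pw φ k)))[(pw φ (j + k) a).length - P]? := by
        intro a b hab
        have hv := closed_pw hcl j _ hab
        have e1 : ([a, b].flatMap (pw φ j)).flatMap (pw φ k) =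
            pw φ (j + k) a ++ pw φ (j + k) b := by
          rw [← flatMap_pw_add]; simp
        have e2 : ([a, b].flatMap (pw φ j)).flatMap (rv (pw φ k)) =
            (pw φ j a).flatMap (rv (pw φ k)) ++ (pw φ j b).flatMap (rv (pw φ k)) := by
          simp
        have hlb : 1 ≤ (pw φ (j + k) b).length := List.length_pos_iff.mpr (hne _ _)
        have hPa := hj2 a
        have := hc _ hv ((pw φ (j + k) a).length - P) (by
          rw [e1, List.length_append]; omega)
        rw [e1, e2] at this
        have e3 : (pw φ (j + k) a).length - P + P = (pw φ (j + k) a).length := by omega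
        rw [e3, List.getElem?_append_right le_rfl, Nat.sub_self] at this
        have e4 : ((pw φ j a).flatMap (rv (pw φ k))).length = (pw φ (j + k) a).length := by
          rw [length_flatMap_rv, pw_add]
        rw [List.getElem?_append_left (by rw [e4]; omega)] at this
        rw [List.head?_eq_getElem?]
        exact this
      intro a b b' hb hb'
      apply hI
      exact ⟨j + k, by rw [main a b hb, main a b' hb']⟩
    have hk' : k = i0 + (k - i0) := by omega
    obtain ⟨w, hw, hwr, hwl⟩ := parity hL (closed_pw hcl k) hM hc (fun a => hn1 k (by omega) a)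
      (fun a b b' hb hb' => by
        rw [hk']
        exact head_pw_add hne (k - i0) (key a b b' hb hb') (fun c => hn1 (k - i0) (by omega) c))
    exact ⟨w, hw, hwr, by omega⟩

end Pool.Agent.Helper78.Pal
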