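import Pool.Agent.Helper78.Pal.Step1
import Pool.Agent.Helper78.Pal.Step2

set_option autoImplicit false

/-!
The core theorem: a reversal closed language of a primitive morphism without high powers contains
arbitrarily long palindromes.
-/

namespace Pool.Agent.Helper78.Pal

variable {α : Type}

theorem core [Finite α] {L : Set (List α)} (hL : Lang L) {φ : α → List α}
    (hcl : ∀ w ∈ L, w.flatMap φ ∈ L)
    (hdes : ∀ n, ∀ w ∈ L, ∃ V ∈ L, w <:+: V.flatMap (pw φ n))
    {C : ℕ} (hC : ∀ n a b, (pw φ n a).length ≤ C * (pw φ n b).length)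
    (hne : ∀ n a, 1 ≤ (pw φ n a).length)
    (hgrow : ∀ N, ∃ n0, ∀ n ≥ n0, ∀ a, N ≤ (pw φ n a).length)
    {K : ℕ} (hK : ∀ z : List α, z ≠ [] → (List.replicate K z).flatten ∉ L) (M : ℕ) :
    ∃ w ∈ L, w.reverse = w ∧ M ≤ w.length := by
  have hclr : ∀ w ∈ L, w.flatMap (rv φ) ∈ L := by
    intro w hw
    rw [flatMap_rv]
    exact hL.reverse_mem (hcl _ (hL.reverse_mem hw))
  have hne1 : ∀ n a, pw φ n a ≠ [] := fun n a =>
    List.length_pos_iff.mp (hne n a)
  have hlen : ∀ n a, (pw (rv φ) n a).length = (pw φ n a).length := by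
    intro n a; rw [pw_rv]; simp [rv]
  have hne2 : ∀ n a, pw (rv φ) n a ≠ [] := fun n a =>
    List.length_pos_iff.mp (by rw [hlen]; exact hne n a)
  obtain ⟨k1, hk1⟩ := step23 hL hcl hgrow hne1 (M + 1) (by omega)
  obtain ⟨k2, hk2⟩ := step23 hL hclr (fun N => by
    obtain ⟨n0, h⟩ := hgrow N
    exact ⟨n0, fun n hn a => by rw [hlen]; exact h n hn a⟩) hne2 (M + 1) (by omega)
  obtain ⟨k, hk, P, hP⟩ := step1 hL (closed_pw hcl) hdes hC hne hK (k1 + k2 + 1) (by omega)
  rcases hP with hP | hP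
  · obtain ⟨w, h1, h2, h3⟩ := hk1 k (by omega) P hP
    exact ⟨w, h1, h2, by omega⟩
  · obtain ⟨w, h1, h2, h3⟩ := hk2 k (by omega) P hP
    exact ⟨w, h1, h2, by omega⟩

end Pool.Agent.Helper78.Pal
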