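import Pool.Agent.Helper78.Pal.Step1

set_option autoImplicit false

/-!
The language of a fixed point of a primitive morphism: growth, balancedness, linear recurrence.
-/

namespace Pool.Agent.Helper78.Pal

variable {α : Type}

/-- The factor of `u` of length `n` starting at position `i`. -/
def seg (u : ℕ → α) (i n : ℕ) : List α := (List.range n).map (fun j => u (i + j))

/-- The language of `u`. -/
def LU (u : ℕ → α) : Set (List α) := {w | ∃ i : ℕ, w = (List.range w.length).map (fun j => u (i + j))}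

@[simp] theorem length_seg (u : ℕ → α) (i n : ℕ) : (seg u i n).length = n := by simp [seg]

theorem seg_add (u : ℕ → α) (i m n : ℕ) : seg u i (m + n) = seg u i m ++ seg u (i + m) n := by
  simp only [seg, List.range_add, List.map_append, List.map_map]
  congr 1
  apply List.map_congr_left
  intro j _
  simp [Nat.add_assoc]

theorem seg_mem (u : ℕ → α) (i n : ℕ) : seg u i n ∈ LU u := by
  refine ⟨i, ?_⟩
  rw [length_seg]; rfl

theorem mem_LU {u : ℕ → α} {w : List α} (h : w ∈ LU u) : ∃ i, w = seg u i w.length := h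

theorem LU_infix {u : ℕ → α} {v w : List α} (h : v <:+: w) (hw : w ∈ LU u) : v ∈ LU u := by
  obtain ⟨s, t, hst⟩ := h
  obtain ⟨i, hi⟩ := mem_LU hw
  have hl : w.length = s.length + (v.length + t.length) := by
    rw [← hst]; simp
  rw [hl, seg_add, seg_add] at hi
  rw [← hst, List.append_assoc] at hi
  have h1 := (List.append_inj hi (by simp)).2
  have h2 := (List.append_inj h1 (by simp)).1
  rw [h2]
  exact seg_mem _ _ _

section Fixed

variable {φ : α → List α} {u : ℕ → α}

/-- The fixed point hypothesis. -/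
def IsFixed (φ : α → List α) (u : ℕ → α) : Prop :=
  ∀ n, (seg u 0 n).flatMap φ = seg u 0 ((seg u 0 n).flatMap φ).length

theorem IsFixed.pw (hfix : IsFixed φ u) (k n : ℕ) :
    (seg u 0 n).flatMap (pw φ k) = seg u 0 ((seg u 0 n).flatMap (pw φ k)).length := by
  induction k with
  | zero => rw [flatMap_pw_zero]; simp
  | succ k ih =>
    rw [flatMap_pw_succ, ih]
    exact hfix _

theorem IsFixed.closed (hfix : IsFixed φ u) : ∀ w ∈ LU u, w.flatMap φ ∈ LU u := by
  intro w hw
  obtain ⟨i, hi⟩ := mem_LU hw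
  have h1 : seg u 0 (i + w.length) = seg u 0 i ++ w := by
    rw [seg_add, Nat.zero_add, ← hi]
  have h2 : w.flatMap φ <:+: (seg u 0 (i + w.length)).flatMap φ := by
    rw [h1, List.flatMap_append]
    exact (List.suffix_append _ _).isInfix
  apply LU_infix h2
  rw [hfix]
  exact seg_mem _ _ _

theorem IsFixed.desub (hfix : IsFixed φ u) (hne : ∀ n a, 1 ≤ (Pal.pw φ n a).length) :
    ∀ n, ∀ w ∈ LU u, ∃ V ∈ LU u, w <:+: V.flatMap (Pal.pw φ n) := by
  intro n w hw
  obtain ⟨i, hi⟩ := mem_LU hw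
  refine ⟨seg u 0 (i + w.length), seg_mem _ _ _, ?_⟩
  rw [hfix.pw]
  have hl : i + w.length ≤ ((seg u 0 (i + w.length)).flatMap (Pal.pw φ n)).length := by
    have := length_le_flatMap (hne n) (seg u 0 (i + w.length))
    rwa [length_seg] at this
  obtain ⟨r, hr⟩ := Nat.exists_eq_add_of_le hl
  rw [hr, seg_add, seg_add, Nat.zero_add, ← hi]
  exact ⟨seg u 0 i, _, rfl⟩

/-- Primitivity. -/
def Prim (φ : α → List α) : Prop := ∃ k : ℕ, 1 ≤ k ∧ ∀ a b : α, b ∈ pw φ k a

theorem Prim.ne (h : Prim φ) (a : α) : φ a ≠ [] := by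
  obtain ⟨k, hk, hp⟩ := h
  intro h0
  obtain ⟨j, rfl⟩ := Nat.exists_eq_add_of_le hk
  have h1 : a ∈ Pal.pw φ (1 + j) a := hp a a
  rw [pw_add] at h1
  have : Pal.pw φ 1 a = [] := by simp [Pal.pw, h0]
  rw [this] at h1
  simp at h1

theorem Prim.one_le (h : Prim φ) (n : ℕ) (a : α) : 1 ≤ (Pal.pw φ n a).length := by
  induction n with
  | zero => simp [Pal.pw]
  | succ n ih =>
    simp only [Pal.pw]
    have := length_le_flatMap (φ := φ) (fun a => List.length_pos_iff.mpr (h.ne a)) (Pal.pw φ n a)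
    omega

theorem Prim.mono (h : Prim φ) (m n : ℕ) (a : α) :
    (Pal.pw φ m a).length ≤ (Pal.pw φ (m + n) a).length := by
  rw [pw_add]
  exact length_le_flatMap (h.one_le n) _

theorem length_flatMap_le {ψ : α → List α} {B : ℕ} (hB : ∀ a, (ψ a).length ≤ B) (w : List α) :
    (w.flatMap ψ).length ≤ B * w.length := by
  induction w with
  | nil => simp
  | cons a w ih =>
    rw [List.flatMap_cons, List.length_append, List.length_cons]
    have := hB a
    nlinarith

theorem le_length_flatMap {ψ : α → List α} {B : ℕ} (hB : ∀ a, B ≤ (ψ a).length) (w : List α) :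
    B * w.length ≤ (w.flatMap ψ).length := by
  induction w with
  | nil => simp
  | cons a w ih =>
    rw [List.flatMap_cons, List.length_append, List.length_cons]
    have := hB a
    nlinarith

theorem exists_bound [Finite α] (ψ : α → List α) : ∃ B, ∀ a, (ψ a).length ≤ B := by
  obtain ⟨B, hB⟩ := (Set.finite_range (fun b => (ψ b).length)).bddAbove
  exact ⟨B, fun b => hB ⟨b, rfl⟩⟩

theorem Prim.grow [Nontrivial α] (h : Prim φ) : ∀ N, ∃ n0, ∀ n ≥ n0, ∀ a,
    N ≤ (Pal.pw φ n a).length := by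
  obtain ⟨k, hk, hp⟩ := id h
  have h2 : ∀ c, 2 ≤ (Pal.pw φ k c).length := by
    intro c
    obtain ⟨a, b, hab⟩ := exists_pair_ne α
    by_contra hcon
    have h3 : (Pal.pw φ k c).length = 1 := by
      have := h.one_le k c; omega
    obtain ⟨d, hd⟩ := List.length_eq_one_iff.mp h3
    have ha := hp c a
    have hb := hp c b
    rw [hd] at ha hb
    simp at ha hb
    exact hab (ha.trans hb.symm)
  have h4 : ∀ j c, j + 1 ≤ (Pal.pw φ (k * j) c).length := by
    intro j
    induction j with
    | zero => intro c; exact h.one_le _ c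
    | succ j ih =>
      intro c
      rw [Nat.mul_succ, pw_add]
      have := le_length_flatMap h2 (Pal.pw φ (k * j) c)
      have := ih c
      omega
  intro N
  refine ⟨k * N, fun n hn a => ?_⟩
  obtain ⟨r, rfl⟩ := Nat.exists_eq_add_of_le hn
  have h5 := h4 N a
  have h6 := h.mono (k * N) r a
  omega

theorem infix_of_mem {ψ : α → List α} {a : α} {w : List α} (h : a ∈ w) :
    ψ a <:+: w.flatMap ψ := by
  obtain ⟨s, t, rfl⟩ := List.append_of_mem h
  refine ⟨s.flatMap ψ, t.flatMap ψ, by simp⟩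

theorem Prim.balanced [Finite α] (h : Prim φ) : ∃ C : ℕ, ∀ n a b,
    (Pal.pw φ n a).length ≤ C * (Pal.pw φ n b).length := by
  obtain ⟨k, hk, hp⟩ := h
  obtain ⟨B, hB⟩ := exists_bound (Pal.pw φ k)
  refine ⟨B, fun n a b => ?_⟩
  have h1 : Pal.pw φ n a <:+: Pal.pw φ (k + n) b := by
    rw [pw_add]; exact infix_of_mem (hp b a)
  have h2 : (Pal.pw φ (k + n) b).length ≤ B * (Pal.pw φ n b).length := by
    rw [Nat.add_comm, pw_add]
    exact length_flatMap_le hB _
  exact le_trans h1.length_le h2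

/-- Every factor occurs in all high images of letters. -/
theorem Prim.occurs [Nontrivial α] (h : Prim φ) (hfix : IsFixed φ u) {w : List α}
    (hw : w ∈ LU u) : ∃ n0, ∀ n ≥ n0, ∀ c, w <:+: Pal.pw φ n c := by
  obtain ⟨k, hk, hp⟩ := id h
  obtain ⟨i, hi⟩ := mem_LU hw
  obtain ⟨n1, hn1⟩ := h.grow (i + w.length)
  have h1 : ∀ n ≥ n1, w <:+: Pal.pw φ n (u 0) := by
    intro n hn
    have e1 : Pal.pw φ n (u 0) = seg u 0 (Pal.pw φ n (u 0)).length := by
      have := hfix.pw n 1
      have e2 : seg u 0 1 = [u 0] := by simp [seg, List.range_succ]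
      rw [e2] at this
      simpa using this
    have h2 := hn1 n hn (u 0)
    obtain ⟨r, hr⟩ := Nat.exists_eq_add_of_le h2
    rw [e1, hr, seg_add, seg_add, Nat.zero_add, ← hi]
    exact ⟨seg u 0 i, _, rfl⟩
  refine ⟨k + n1, fun n hn c => ?_⟩
  obtain ⟨r, rfl⟩ := Nat.exists_eq_add_of_le hn
  have e3 : k + n1 + r = k + (n1 + r) := by omega
  rw [e3, pw_add]
  exact (h1 (n1 + r) (by omega)).trans (infix_of_mem (hp c (u 0)))

theorem Prim.pairs [Finite α] [Nontrivial α] (h : Prim φ) (hfix : IsFixed φ u) :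
    ∃ K0, ∀ a b, [a, b] ∈ LU u → ∀ c, [a, b] <:+: Pal.pw φ K0 c := by
  classical
  let I : α × α → ℕ := fun p => if hp : [p.1, p.2] ∈ LU u then (h.occurs hfix hp).choose else 0
  obtain ⟨B, hB⟩ := (Set.finite_range I).bddAbove
  refine ⟨B, fun a b hab c => ?_⟩
  have h1 : I (a, b) ≤ B := hB ⟨(a, b), rfl⟩
  have h2 : I (a, b) = (h.occurs hfix hab).choose := by
    simp only [I]; rw [dif_pos hab]
  rw [h2] at h1
  exact (h.occurs hfix hab).choose_spec B h1 c

/-- A long factor of `u` contains a full image of a letter. -/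
theorem contains_image {ψ : α → List α} (hfix : ∀ n, (seg u 0 n).flatMap ψ =
    seg u 0 ((seg u 0 n).flatMap ψ).length) (hne : ∀ a, 1 ≤ (ψ a).length) {B : ℕ}
    (hB : ∀ a, (ψ a).length ≤ B) {v : List α} (hv : v ∈ LU u) (hl : 2 * B ≤ v.length) :
    ∃ c, ψ c <:+: v := by
  obtain ⟨i, hi⟩ := mem_LU hv
  have h1 := length_le_flatMap hne (seg u 0 (i + 2))
  rw [length_seg] at h1
  obtain ⟨V1, b, V2, hs, hle, hlt⟩ := split_pos ψ (seg u 0 (i + 2)) i (by omega)
  have h2 := length_le_flatMap hne V1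
  have h3 : V1.length + (V2.length + 1) = i + 2 := by
    have := congrArg List.length hs
    rw [length_seg, List.length_append, List.length_cons] at this
    omega
  cases V2 with
  | nil => simp at h3; omega
  | cons b2 V3 =>
    refine ⟨b2, ?_⟩
    -- `ψ b2` occupies positions `[p, p + |ψ b2|)`
    set p := (V1.flatMap ψ).length + (ψ b).length with hp
    have e1 : (seg u 0 (i + 2)).flatMap ψ = (V1.flatMap ψ ++ ψ b) ++ (ψ b2 ++ V3.flatMap ψ) := by
      rw [hs]; simp [List.flatMap_append, List.append_assoc]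
    have e2 := hfix (i + 2)
    have e3 : ((seg u 0 (i + 2)).flatMap ψ).length = p + ((ψ b2).length +
        (V3.flatMap ψ).length) := by
      rw [e1]; simp only [List.length_append]; omega
    rw [e3, e1, seg_add u 0 p, seg_add u (0 + p)] at e2
    have e4 := (List.append_inj e2 (by simp only [List.length_append, length_seg]; omega)).2
    have e5 := (List.append_inj e4 (by simp)).1
    rw [Nat.zero_add] at e5
    have hb1 := hB b
    have hb2 := hB b2
    obtain ⟨r1, hr1⟩ : ∃ r, p = i + r := ⟨p - i, by omega⟩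
    obtain ⟨r2, hr2⟩ : ∃ r, v.length = r1 + ((ψ b2).length + r) :=
      ⟨v.length - r1 - (ψ b2).length, by omega⟩
    rw [e5, hi, hr2, seg_add, seg_add, hr1]
    exact ⟨_, _, (List.append_assoc _ _ _)⟩

/-- A short factor is contained in the image of a two-letter word. -/
theorem in_image_pair {ψ : α → List α} (hfix : ∀ n, (seg u 0 n).flatMap ψ =
    seg u 0 ((seg u 0 n).flatMap ψ).length) (hne : ∀ a, 1 ≤ (ψ a).length)
    {w : List α} (hw : w ∈ LU u) (hl : ∀ a, w.length ≤ (ψ a).length) :
    ∃ a b, [a, b] ∈ LU u ∧ w <:+: [a, b].flatMap ψ := by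
  obtain ⟨i, hi⟩ := mem_LU hw
  have h1 := length_le_flatMap hne (seg u 0 (i + 2))
  rw [length_seg] at h1
  obtain ⟨V1, b, V2, hs, hle, hlt⟩ := split_pos ψ (seg u 0 (i + 2)) i (by omega)
  have h2 := length_le_flatMap hne V1
  have h3 : V1.length + (V2.length + 1) = i + 2 := by
    have := congrArg List.length hs
    rw [length_seg, List.length_append, List.length_cons] at this
    omega
  cases V2 with
  | nil => simp at h3; omega
  | cons b2 V3 =>
    refine ⟨b, b2, ?_, ?_⟩
    · apply LU_infix (w := seg u 0 (i + 2)) _ (seg_mem _ _ _)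
      rw [hs]; exact ⟨V1, V3, by simp⟩
    · set p := (V1.flatMap ψ).length with hp
      have e1 : (seg u 0 (i + 2)).flatMap ψ =
          V1.flatMap ψ ++ ([b, b2].flatMap ψ ++ V3.flatMap ψ) := by
        rw [hs]; simp [List.flatMap_append, List.append_assoc]
      have e2 := hfix (i + 2)
      have e3 : ((seg u 0 (i + 2)).flatMap ψ).length = p + (([b, b2].flatMap ψ).length +
          (V3.flatMap ψ).length) := by
        rw [e1]; simp only [List.length_append]; omega
      rw [e3, e1, seg_add u 0 p, seg_add u (0 + p)] at e2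
      have e4 := (List.append_inj e2 (by rw [length_seg])).2
      have e5 := (List.append_inj e4 (by simp)).1
      rw [Nat.zero_add] at e5
      have hb2 := hl b2
      have e6 : ([b, b2].flatMap ψ).length = (ψ b).length + (ψ b2).length := by simp
      obtain ⟨r1, hr1⟩ : ∃ r, i = p + r := ⟨i - p, by omega⟩
      obtain ⟨r2, hr2⟩ : ∃ r, ([b, b2].flatMap ψ).length = r1 + (w.length + r) :=
        ⟨([b, b2].flatMap ψ).length - r1 - w.length, by omega⟩
      rw [e5, hr2, seg_add, seg_add, ← hr1, ← hi]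
      exact ⟨_, _, (List.append_assoc _ _ _)⟩

/-- Linear recurrence. -/
theorem Prim.linear [Finite α] [Nontrivial α] (h : Prim φ) (hfix : IsFixed φ u) :
    ∃ R : ℕ, ∀ w ∈ LU u, ∀ v ∈ LU u, R * w.length ≤ v.length → w <:+: v := by
  classical
  obtain ⟨K0, hK0⟩ := h.pairs hfix
  obtain ⟨C, hC⟩ := h.balanced
  obtain ⟨B0, hB0⟩ := exists_bound (Pal.pw φ K0)
  obtain ⟨B1, hB1⟩ := exists_bound (Pal.pw φ (K0 + 1))
  refine ⟨2 * (B0 + B1 * C), fun w hw v hv hl => ?_⟩
  rcases Nat.eq_zero_or_pos w.length with h0 | h0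
  · have : w = [] := List.length_eq_zero_iff.mp h0
    rw [this]; exact List.nil_infix
  have hex : ∃ n, ∀ a, w.length ≤ (Pal.pw φ n a).length := by
    obtain ⟨n0, hn0⟩ := h.grow w.length
    exact ⟨n0, hn0 n0 le_rfl⟩
  set n := Nat.find hex with hn
  have hn1 := Nat.find_spec hex
  rw [← hn] at hn1
  obtain ⟨a, b, hab, hw2⟩ := in_image_pair (hfix.pw n) (h.one_le n) hw hn1
  have hwc : ∀ c, w <:+: Pal.pw φ (K0 + n) c := by
    intro c
    rw [pw_add]
    exact hw2.trans (infix_flatMap (hK0 a b hab c))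
  have hmax : ∀ c, (Pal.pw φ (K0 + n) c).length ≤ (B0 + B1 * C) * w.length := by
    intro c
    rcases Nat.eq_zero_or_pos n with h1 | h1
    · rw [h1, Nat.add_zero]
      have h2 := hB0 c
      calc _ ≤ B0 := h2
        _ = B0 * 1 := (Nat.mul_one _).symm
        _ ≤ (B0 + B1 * C) * w.length := Nat.mul_le_mul (Nat.le_add_right _ _) h0
    · obtain ⟨m, hm⟩ := Nat.exists_eq_succ_of_ne_zero (Nat.pos_iff_ne_zero.mp h1)
      have h2 : ¬ ∀ a, w.length ≤ (Pal.pw φ m a).length := Nat.find_min hex (by omega)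
      push Not at h2
      obtain ⟨a', ha'⟩ := h2
      have e1 : K0 + n = m + (K0 + 1) := by omega
      rw [e1, pw_add]
      have h3 := length_flatMap_le hB1 (Pal.pw φ m c)
      have h4 := hC m c a'
      calc _ ≤ B1 * (Pal.pw φ m c).length := h3
        _ ≤ B1 * (C * (Pal.pw φ m a').length) := Nat.mul_le_mul_left _ h4
        _ ≤ B1 * (C * w.length) := by
            apply Nat.mul_le_mul_left; apply Nat.mul_le_mul_left; exact ha'.le
        _ ≤ (B0 + B1 * C) * w.length := by nlinarith
  obtain ⟨c, hc⟩ := contains_image (hfix.pw (K0 + n)) (h.one_le _) hmax hv (by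
    rw [← Nat.mul_assoc]; exact hl)
  exact (hwc c).trans hc

end Fixed

end Pool.Agent.Helper78.Pal
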