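import Pool.Agent.Helper78.Pal.Core
import Pool.Agent.Helper78.Pal.Fixed

set_option autoImplicit false

/-!
High powers give palindromes; assembly of the final theorem.
-/

namespace Pool.Agent.Helper78.Pal

variable {α : Type}

theorem length_flatten_replicate (K : ℕ) (z : List α) :
    (List.replicate K z).flatten.length = K * z.length := by
  induction K with
  | zero => simp
  | succ K ih => rw [List.replicate_succ, List.flatten_cons, List.length_append, ih]; ring

/-- Letters of a power. -/
theorem getElem?_power (K : ℕ) (z : List α) (j : ℕ) (hj : j < K * z.length) :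
    (List.replicate K z).flatten[j]? = z[j % z.length]? := by
  induction K generalizing j with
  | zero => simp at hj
  | succ K ih =>
    rw [List.replicate_succ, List.flatten_cons]
    by_cases h : j < z.length
    · rw [List.getElem?_append_left h, Nat.mod_eq_of_lt h]
    · rw [List.getElem?_append_right (by omega), ih (j - z.length) (by
        have : (K + 1) * z.length = K * z.length + z.length := by ring
        omega)]
      rw [← Nat.mod_eq_sub_mod (by omega)]

theorem power_comm (K : ℕ) (x y : List α) :
    x ++ (List.replicate K (y ++ x)).flatten = (List.replicate K (x ++ y)).flatten ++ x := by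
  induction K with
  | zero => simp
  | succ K ih =>
    rw [List.replicate_succ, List.flatten_cons, List.replicate_succ, List.flatten_cons,
      List.append_assoc (x ++ y), ← ih]
    simp [List.append_assoc]

theorem reverse_flatten_replicate (K : ℕ) (z : List α) :
    (List.replicate K z).flatten.reverse = (List.replicate K z.reverse).flatten := by
  induction K with
  | zero => simp
  | succ K ih =>
    rw [List.replicate_succ', List.flatten_append, List.reverse_append, ih, List.replicate_succ,
      List.flatten_cons]
    simp

/-- A power that contains the reversal of its root starts with a long palindrome. -/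
theorem palindrome_of_power {K : ℕ} {z : List α} (hz : z ≠ [])
    (h : z.reverse <:+: (List.replicate (K + 1) z).flatten) :
    ∃ p, p <:+: (List.replicate (K + 1) z).flatten ∧ p.reverse = p ∧ K ≤ p.length := by
  obtain ⟨s, t, hst⟩ := h
  have hzl : 0 < z.length := List.length_pos_iff.mpr hz
  have hlen : s.length + z.length + t.length = (K + 1) * z.length := by
    rw [← length_flatten_replicate, ← hst]; simp; omega
  set r := s.length % z.length with hr
  have hrl : r < z.length := Nat.mod_lt _ hzl
  set x := z.take r with hx
  set y := z.drop r with hy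
  have hxy : x ++ y = z := List.take_append_drop _ _
  have hxl : x.length = r := by rw [hx, List.length_take]; omega
  have hyl : y.length = z.length - r := by rw [hy, List.length_drop]
  have hrev : z.reverse = y ++ x := by
    apply List.ext_getElem?
    intro j
    by_cases hj : j < z.length
    · have e1 : z.reverse[j]? = ((List.replicate (K + 1) z).flatten)[s.length + j]? := by
        rw [← hst, List.append_assoc, List.getElem?_append_right (by omega),
          Nat.add_sub_cancel_left, List.getElem?_append_left (by simp; omega)]
      rw [e1, getElem?_power _ _ _ (by omega)]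
      by_cases hj2 : j < z.length - r
      · rw [List.getElem?_append_left (by omega), hy, List.getElem?_drop]
        congr 1
        rw [Nat.add_mod, ← hr, Nat.mod_eq_of_lt hj, Nat.mod_eq_of_lt (by omega)]
      · rw [List.getElem?_append_right (by omega), hx, List.getElem?_take_of_lt (by omega)]
        congr 1
        rw [Nat.add_mod, ← hr, Nat.mod_eq_of_lt hj]
        have : r + j = z.length + (j - y.length) := by omega
        rw [this, Nat.add_mod_left, Nat.mod_eq_of_lt (by omega)]
    · rw [List.getElem?_eq_none (by simp; omega), List.getElem?_eq_none (by simp; omega)]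
  have h2 : y.reverse ++ x.reverse = y ++ x := by
    rw [← hrev, ← hxy, List.reverse_append]
  have h3 := List.append_inj h2 (by simp)
  refine ⟨(List.replicate K (x ++ y)).flatten ++ x, ?_, ?_, ?_⟩
  · refine ⟨[], y, ?_⟩
    rw [List.nil_append, hxy, List.append_assoc, hxy, List.replicate_succ', List.flatten_append]
    simp
  · rw [List.reverse_append, reverse_flatten_replicate, List.reverse_append, h3.1, h3.2,
      power_comm]
  · rw [List.length_append, length_flatten_replicate, hxy]
    nlinarith

theorem infinite_of_long {S : Set (List α)} (h : ∀ N, ∃ w ∈ S, N ≤ w.length) : S.Infinite := by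
  intro hfin
  obtain ⟨B, hB⟩ := (hfin.image List.length).bddAbove
  obtain ⟨w, hw, hl⟩ := h (B + 1)
  have := hB ⟨w, hw, rfl⟩
  omega

theorem long_of_infinite [Finite α] {S : Set (List α)} (h : S.Infinite) (N : ℕ) :
    ∃ w ∈ S, N ≤ w.length := by
  by_contra hcon
  push Not at hcon
  apply h
  exact (List.finite_length_le α N).subset (fun w hw => (hcon w hw).le)

section Main

variable {φ : α → List α} {u : ℕ → α}

theorem forward [Finite α] [Nontrivial α] (h : Prim φ) (hfix : IsFixed φ u)
    (hrev : ∀ w ∈ LU u, w.reverse ∈ LU u) (N : ℕ) :
    ∃ w ∈ LU u, w.reverse = w ∧ N ≤ w.length := by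
  obtain ⟨R, hR⟩ := h.linear hfix
  have hL : Lang (LU u) :=
    { infix_mem := fun hv hw => LU_infix hv hw
      reverse_mem := fun hw => hrev _ hw
      recur := fun w hw => ⟨R * w.length, fun v hv hl => hR w hw v hv hl⟩
      long := fun n => ⟨seg u 0 n, seg_mem _ _ _, by simp⟩ }
  by_cases hK : ∃ K : ℕ, ∀ z : List α, z ≠ [] → (List.replicate K z).flatten ∉ LU u
  · obtain ⟨K, hK⟩ := hK
    obtain ⟨C, hC⟩ := h.balanced
    exact core hL hfix.closed (hfix.desub h.one_le) hC h.one_le h.grow hK N
  · push Not at hK
    obtain ⟨z, hz, hzL⟩ := hK (R + N + 1)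
    have hzl : 0 < z.length := List.length_pos_iff.mpr hz
    have h1 : z ∈ LU u := by
      apply LU_infix _ hzL
      rw [List.replicate_succ, List.flatten_cons]
      exact (List.prefix_append _ _).isInfix
    have h2 := hR _ (hrev z h1) _ hzL (by
      rw [length_flatten_replicate, List.length_reverse]
      exact Nat.mul_le_mul_right _ (by omega))
    obtain ⟨p, hp1, hp2, hp3⟩ := palindrome_of_power hz h2
    exact ⟨p, LU_infix hp1 hzL, hp2, by omega⟩

theorem backward [Finite α] [Nontrivial α] (h : Prim φ) (hfix : IsFixed φ u)
    (hpal : ∀ N, ∃ w ∈ LU u, w.reverse = w ∧ N ≤ w.length) :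
    ∀ w ∈ LU u, w.reverse ∈ LU u := by
  obtain ⟨R, hR⟩ := h.linear hfix
  intro w hw
  obtain ⟨p, hp, hpr, hpl⟩ := hpal (R * w.length)
  have h1 := hR w hw p hp hpl
  have h2 : w.reverse <:+: p := by
    obtain ⟨s, t, hst⟩ := h1
    refine ⟨t.reverse, s.reverse, ?_⟩
    rw [← hpr, ← hst]; simp [List.append_assoc]
  exact LU_infix h2 hp

end Main

theorem final (α : Type) [Finite α] (φ : α → List α) (u : ℕ → α)
    (hprim : ∃ k : ℕ, 1 ≤ k ∧ ∀ a b : α, b ∈ (fun w : List α => w.flatMap φ)^[k] [a])
    (hfix : ∀ n : ℕ, ((List.range n).map u).flatMap φ =
          (List.range (((List.range n).map u).flatMap φ).length).map u) :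
    (∀ i n : ℕ, ∃ i' : ℕ,
          (List.range n).map (fun j => u (i' + j)) =
            ((List.range n).map (fun j => u (i + j))).reverse) ↔
        Set.Infinite {w : List α |
          (∃ i : ℕ, w = (List.range w.length).map (fun j => u (i + j))) ∧
            w.reverse = w} := by
  have hp : Prim φ := by
    obtain ⟨k, hk, h⟩ := hprim
    refine ⟨k, hk, fun a b => ?_⟩
    have := h a b
    rw [iterate_eq] at this
    simpa using this
  have hseg : ∀ n, seg u 0 n = (List.range n).map u := by
    intro n; simp [seg]
  have hf : IsFixed φ u := by
    intro n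
    rw [hseg, hseg]
    exact hfix n
  have hrev : (∀ i n : ℕ, ∃ i' : ℕ,
          (List.range n).map (fun j => u (i' + j)) =
            ((List.range n).map (fun j => u (i + j))).reverse) ↔
      ∀ w ∈ LU u, w.reverse ∈ LU u := by
    constructor
    · intro h w hw
      obtain ⟨i, hi⟩ := mem_LU hw
      obtain ⟨i', hi'⟩ := h i w.length
      refine ⟨i', ?_⟩
      rw [List.length_reverse, hi', ]
      congr 1
    · intro h i n
      obtain ⟨i', hi'⟩ := h _ (seg_mem u i n)
      refine ⟨i', ?_⟩
      rw [List.length_reverse, length_seg] at hi'
      exact hi'.symm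
  rw [hrev]
  rcases subsingleton_or_nontrivial α with hs | hs
  · -- one letter: everything is a palindrome
    have hall : ∀ w : List α, w.reverse = w := by
      intro w
      apply List.ext_getElem
      · simp
      · intro i h1 h2; exact Subsingleton.elim _ _
    constructor
    · intro _
      apply infinite_of_long
      intro N
      exact ⟨seg u 0 N, ⟨seg_mem u 0 N, hall _⟩, by simp⟩
    · intro _ w hw
      rw [hall w]; exact hw
  · constructor
    · intro h
      apply infinite_of_long
      intro N
      obtain ⟨w, h1, h2, h3⟩ := forward hp hf h N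
      exact ⟨w, ⟨h1, h2⟩, h3⟩
    · intro h
      apply backward hp hf
      intro N
      obtain ⟨w, ⟨h1, h2⟩, h3⟩ := long_of_infinite h N
      exact ⟨w, h1, h2, h3⟩

end Pool.Agent.Helper78.Pal
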