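import Pool.Agent.Helper78.Pal.Basic

set_option autoImplicit false

/-!
The parity argument: if `ψ` is conjugate to its reversal on `L` (shift `P`), and the prefixes of
length `M` of `ψ b` depend only on the preceding letter, then `L` contains a palindrome of length
`M` or `M + 1`.
-/

namespace Pool.Agent.Helper78.Pal

variable {α : Type}

/-- The last `n` letters. -/
def suf (n : ℕ) (w : List α) : List α := w.drop (w.length - n)

theorem take_suf (n : ℕ) (w : List α) : w.take (w.length - n) ++ suf n w = w := by
  simp [suf]

theorem length_suf {n : ℕ} {w : List α} (h : n ≤ w.length) : (suf n w).length = n := by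
  simp [suf]; omega

theorem suf_append {n : ℕ} (v : List α) {w : List α} (h : n ≤ w.length) :
    suf n (v ++ w) = suf n w := by
  simp only [suf, List.length_append]
  rw [List.drop_append]
  have h1 : v.length + w.length - n ≥ v.length := by omega
  rw [List.drop_eq_nil_of_le h1, List.nil_append]
  congr 1
  omega

theorem suf_reverse (n : ℕ) (w : List α) : suf n w.reverse = (w.take n).reverse := by
  simp only [suf, List.length_reverse]
  rw [List.drop_reverse]
  by_cases h : n ≤ w.length
  · congr 2; omega
  · rw [List.take_of_length_le (by omega), List.take_of_length_le (by omega)]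

theorem take_reverse' (n : ℕ) (w : List α) : w.reverse.take n = (suf n w).reverse := by
  simp [suf, List.take_reverse]

section G

variable (g : List α → ZMod 2) (M : ℕ)

/-- Sum of `g` over all occurrences of factors of length `M + 1`. -/
def gs : List α → ZMod 2
  | [] => 0
  | a :: x => (if M + 1 ≤ (a :: x).length then g ((a :: x).take (M + 1)) else 0) + gs x

theorem gs_short {x : List α} (h : x.length ≤ M) : gs g M x = 0 := by
  induction x with
  | nil => rfl
  | cons a x ih =>
    simp only [gs]
    rw [if_neg (by omega), ih (by simp at h; omega)]
    simp

theorem gs_single {x : List α} (h : x.length = M + 1) : gs g M x = g x := by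
  cases x with
  | nil => simp at h
  | cons a x =>
    simp only [gs]
    rw [if_pos (by omega), gs_short g M (by simp at h; omega), List.take_of_length_le (by omega)]
    simp

theorem gs_split (x : List α) {c : List α} (y : List α) (hc : c.length = M) :
    gs g M (x ++ (c ++ y)) = gs g M (x ++ c) + gs g M (c ++ y) := by
  induction x with
  | nil => simp [gs_short g M (le_of_eq hc)]
  | cons a x ih =>
    simp only [List.cons_append, gs]
    rw [ih, if_pos (by simp; omega), if_pos (by simp; omega)]
    have : (a :: (x ++ (c ++ y))).take (M + 1) = (a :: (x ++ c)).take (M + 1) := by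
      have h1 : a :: (x ++ (c ++ y)) = (a :: (x ++ c)) ++ y := by simp
      rw [h1, List.take_append_of_le_length (by simp; omega)]
    rw [this, add_assoc]

end G

theorem zmod2_self (a : ZMod 2) : a + a = 0 := by
  revert a; decide

section Rev

variable {L : Set (List α)} (hL : Lang L) (g V : List α → ZMod 2) (M : ℕ)
  (hg : ∀ w ∈ L, w.length = M + 1 → g w.reverse = g w + (V (w.take M) + V (w.drop 1)))

include hL hg in
theorem gs_reverse {x : List α} (hx : x ∈ L) (hM : M ≤ x.length) :
    gs g M x.reverse = gs g M x + (V (x.take M) + V (suf M x)) := by
  induction x with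
  | nil =>
    have : M = 0 := by simpa using hM
    subst this
    simp [gs, suf, zmod2_self]
  | cons a x ih =>
    by_cases h : M ≤ x.length
    · have hxL : x ∈ L := hL.infix_mem ⟨[a], [], by simp⟩ hx
      have ih' := ih hxL h
      set w := (a :: x).take (M + 1) with hw
      have hwlen : w.length = M + 1 := by simp [hw]; omega
      have hwL : w ∈ L := hL.infix_mem (List.take_prefix _ _).isInfix hx
      have e1 : (a :: x).reverse = (x.drop M).reverse ++ ((x.take M).reverse ++ [a]) := by
        rw [← List.append_assoc, ← List.reverse_append, List.take_append_drop]; simp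
      have e2 : (x.take M).reverse ++ [a] = w.reverse := by
        simp [hw]
      have e3 : (x.drop M).reverse ++ (x.take M).reverse = x.reverse := by
        rw [← List.reverse_append, List.take_append_drop]
      rw [e1, gs_split g M _ _ (by simp; omega), e3, ih', e2, gs_single g M (x := w.reverse)
          (by rw [List.length_reverse]; exact hwlen), hg w hwL hwlen]
      have e4 : w.take M = (a :: x).take M := by
        rw [hw, List.take_take]; congr 1; omega
      have e5 : w.drop 1 = x.take M := by
        rw [hw]; simp
      have e6 : suf M (a :: x) = suf M x := by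
        have := suf_append (n := M) [a] h
        simpa using this
      rw [e4, e5, e6]
      have e7 : gs g M (a :: x) = g w + gs g M x := by
        simp only [gs]; rw [if_pos (by simp; omega)]
      rw [e7]
      have := zmod2_self (V (x.take M))
      linear_combination this
    · have hlen : (a :: x).length = M := by
        simp only [List.length_cons] at hM ⊢; omega
      rw [gs_short g M (by simp only [List.length_reverse]; omega), gs_short g M (le_of_eq hlen)]
      rw [List.take_of_length_le (le_of_eq hlen)]
      have : suf M (a :: x) = a :: x := by
        unfold suf; rw [hlen]; simp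
      rw [this, zmod2_self]; simp

end Rev

section VF

open Classical in
/-- A function on words with values in `F_2` that distinguishes a non-palindrome from its
reversal. -/
noncomputable def Vf (w : List α) : ZMod 2 := if WellOrderingRel w w.reverse then 1 else 0

theorem Vf_reverse {w : List α} (h : w.reverse ≠ w) : Vf w.reverse = Vf w + 1 := by
  unfold Vf
  rw [List.reverse_reverse]
  have htri := trichotomous_of (WellOrderingRel (α := List α)) w w.reverse
  have hasym : WellOrderingRel w w.reverse → ¬ WellOrderingRel w.reverse w := fun h1 h2 =>
    asymm_of (WellOrderingRel (α := List α)) h1 h2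
  rcases htri with h1 | h1 | h1
  · rw [if_pos h1, if_neg (hasym h1)]; decide
  · exact absurd h1.symm h
  · rw [if_pos h1, if_neg (fun h2 => hasym h2 h1)]; decide

/-- The function that is summed. -/
noncomputable def gf (M : ℕ) (w : List α) : ZMod 2 := (Vf (w.take M) + Vf (w.drop 1)) * Vf w

theorem gf_reverse {L : Set (List α)} (hL : Lang L) {M : ℕ}
    (hno : ∀ w ∈ L, (w.length = M ∨ w.length = M + 1) → w.reverse ≠ w)
    (w : List α) (hw : w ∈ L) (hlen : w.length = M + 1) :
    gf M w.reverse = gf M w + (Vf (w.take M) + Vf (w.drop 1)) := by
  unfold gf
  have h1 : w.reverse.take M = (w.drop 1).reverse := by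
    rw [List.take_reverse, hlen]; congr 2; omega
  have h2 : w.reverse.drop 1 = (w.take M).reverse := by
    rw [List.drop_reverse, hlen]; congr 2
  have h3 : w.take M ∈ L := hL.infix_mem (List.take_prefix _ _).isInfix hw
  have h4 : w.drop 1 ∈ L := hL.infix_mem (List.drop_suffix _ _).isInfix hw
  rw [h1, h2, Vf_reverse (hno w hw (Or.inr hlen)), Vf_reverse (hno _ h3 (Or.inl (by simp; omega))),
    Vf_reverse (hno _ h4 (Or.inl (by simp; omega)))]
  have : (1 : ZMod 2) + 1 = 0 := by decide
  linear_combination (Vf w + 1) * this

end VF

end Pool.Agent.Helper78.Pal
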