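import Pool.Agent.Helper78.Pal.Parity

set_option autoImplicit false

/-!
The parity theorem.
-/

namespace Pool.Agent.Helper78.Pal

variable {α : Type}

/-- Conjugacy in terms of `take` and `drop`. -/
theorem Conj.take {L : Set (List α)} {ψ : α → List α} {P : ℕ} (hc : Conj L ψ P) {v : List α}
    (hv : v ∈ L) {n : ℕ} (hn : n + P ≤ (v.flatMap ψ).length) :
    ((v.flatMap ψ).drop P).take n = (v.flatMap (rv ψ)).take n := by
  apply List.ext_getElem?
  intro i
  by_cases hi : i < n
  · rw [List.getElem?_take_of_lt hi, List.getElem?_take_of_lt hi, List.getElem?_drop,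
      Nat.add_comm P i]
    exact hc v hv i (by omega)
  · rw [List.getElem?_take_eq_none (by omega), List.getElem?_take_eq_none (by omega)]

section Main

variable {L : Set (List α)} (hL : Lang L) {ψ : α → List α}
  (hcl : ∀ w ∈ L, w.flatMap ψ ∈ L) {P M : ℕ} (hM : 1 ≤ M) (hc : Conj L ψ P)
  (hlen : ∀ a, M ≤ (ψ a).length)
  (hpre : ∀ a b b', [a, b] ∈ L → [a, b'] ∈ L → (ψ b).take M = (ψ b').take M)

open Classical in
/-- The prefix of length `M` of `ψ b` for any `b` following `a`. -/
noncomputable def pre (L : Set (List α)) (ψ : α → List α) (M : ℕ) (a : α) : List α :=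
  if h : ∃ b, [a, b] ∈ L then (ψ h.choose).take M else []

include hpre in
theorem pre_eq {a b : α} (h : [a, b] ∈ L) : (ψ b).take M = pre L ψ M a := by
  unfold pre
  have hex : ∃ b, [a, b] ∈ L := ⟨b, h⟩
  rw [dif_pos hex]
  exact hpre a b _ h hex.choose_spec

/-- The total sum of `gf` over a word. -/
noncomputable def GG (M : ℕ) (w : List α) : ZMod 2 := gs (gf M) M w

/-- `γ`. -/
noncomputable def gam (L : Set (List α)) (ψ : α → List α) (M : ℕ) (a : α) : ZMod 2 :=
  GG M (ψ a ++ pre L ψ M a)

/-- `β`. -/
noncomputable def bet (L : Set (List α)) (ψ : α → List α) (M : ℕ) (a : α) : ZMod 2 :=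
  GG M (suf M (ψ a) ++ pre L ψ M a)

/-- `B`. -/
noncomputable def BB (ψ : α → List α) (M : ℕ) (a : α) : ZMod 2 := Vf (suf M (ψ a))

/-- `Q`. -/
noncomputable def QQ (ψ : α → List α) (P M : ℕ) (z : List α) : ZMod 2 :=
  GG M ((z.flatMap ψ).take (P + M))

include hL hlen hpre in
theorem claim0 {a b : α} (h : [b, a] ∈ L) :
    GG M (suf M (ψ b) ++ ψ a) = bet L ψ M b + gam L ψ M a + bet L ψ M a := by
  obtain ⟨d, hd⟩ := hL.extend_right h
  have had : [a, d] ∈ L := hL.infix_mem ⟨[b], [], by simp⟩ hd
  have hpa := pre_eq (L := L) hpre h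
  have hpd := pre_eq (L := L) hpre had
  have s1 : GG M (suf M (ψ b) ++ (ψ a ++ pre L ψ M a)) = bet L ψ M b + gam L ψ M a := by
    have e : ψ a ++ pre L ψ M a = pre L ψ M b ++ ((ψ a).drop M ++ pre L ψ M a) := by
      rw [← hpa, ← List.append_assoc, List.take_append_drop]
    have hl : (pre L ψ M b).length = M := by
      rw [← hpa]; simp [hlen a]
    unfold bet gam GG
    rw [e, gs_split _ _ _ _ hl]
  have s2 : GG M (suf M (ψ b) ++ (ψ a ++ pre L ψ M a)) =
      GG M (suf M (ψ b) ++ ψ a) + bet L ψ M a := by
    have e : suf M (ψ b) ++ (ψ a ++ pre L ψ M a) =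
        (suf M (ψ b) ++ (ψ a).take ((ψ a).length - M)) ++ (suf M (ψ a) ++ pre L ψ M a) := by
      conv_lhs => rw [← take_suf M (ψ a)]
      simp [List.append_assoc]
    have e2 : (suf M (ψ b) ++ (ψ a).take ((ψ a).length - M)) ++ suf M (ψ a) =
        suf M (ψ b) ++ ψ a := by
      rw [List.append_assoc, take_suf]
    unfold bet GG
    rw [e, gs_split _ _ _ _ (length_suf (hlen a)), e2]
  have := zmod2_self (bet L ψ M a)
  linear_combination s1 - s2 - this

variable (hno : ∀ w ∈ L, (w.length = M ∨ w.length = M + 1) → w.reverse ≠ w)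

include hL hno in
theorem GG_reverse {x : List α} (hx : x ∈ L) (h : M ≤ x.length) :
    GG M x.reverse = GG M x + (Vf (x.take M) + Vf (suf M x)) :=
  gs_reverse hL (gf M) Vf M (fun w hw hl => gf_reverse hL hno w hw hl) hx h

include hL hcl hc hlen hpre hno in
theorem claim1 {a b : α} {z : List α} (h : a :: b :: z ∈ L)
    (hz : P + M ≤ ((b :: z).flatMap ψ).length) :
    QQ ψ P M (a :: b :: z) + (bet L ψ M a + BB ψ M a) =
      QQ ψ P M (b :: z) + (bet L ψ M b + BB ψ M b) := by
  have hab : [a, b] ∈ L := hL.infix_mem ⟨[], z, by simp⟩ h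
  have hba : [b, a] ∈ L := by simpa using hL.reverse_mem hab
  have hpb := pre_eq (L := L) hpre hab
  set Yb := (b :: z).flatMap ψ with hYb
  -- the word Z
  have e0 : (a :: b :: z).flatMap ψ = ψ a ++ Yb := by simp [hYb]
  have hYbM : Yb.take (P + M) = pre L ψ M a ++ (Yb.take (P + M)).drop M := by
    have : (Yb.take (P + M)).take M = pre L ψ M a := by
      rw [List.take_take, ← hpb]
      have : min M (P + M) = M := by omega
      rw [this, hYb, List.flatMap_cons, List.take_append_of_le_length (hlen b)]
    rw [← this, List.take_append_drop]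
  have hprel : (pre L ψ M a).length = M := by rw [← hpb]; simp [hlen b]
  have i1 : GG M (ψ a ++ Yb.take (P + M)) = gam L ψ M a + QQ ψ P M (b :: z) := by
    unfold gam QQ GG
    rw [← hYb]
    conv_lhs => rw [hYbM]
    rw [gs_split _ _ _ _ hprel, ← hYbM]
  -- second splitting
  have e1 : ψ a ++ Yb.take (P + M) = ((a :: b :: z).flatMap ψ).take ((ψ a).length + (P + M)) := by
    rw [e0, List.take_append]
    rw [List.take_of_length_le (l := ψ a) (by omega)]
    congr 2; omega
  have e2 : (ψ a ++ Yb.take (P + M)).drop P = rv ψ a ++ (rv ψ b).take M := by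
    rw [e1, List.drop_take]
    have hn : (ψ a).length + (P + M) - P = (ψ a).length + M := by omega
    rw [hn, hc.take h (by rw [e0, List.length_append]; omega)]
    simp only [List.flatMap_cons]
    rw [List.take_append]
    have hl : (rv ψ a).length = (ψ a).length := by simp [rv]
    rw [List.take_of_length_le (by omega), hl]
    have : (ψ a).length + M - (ψ a).length = M := by omega
    rw [this, List.take_append_of_le_length (by simp [rv, hlen b])]
  have e3 : (ψ a ++ Yb.take (P + M)) = (ψ a ++ Yb.take (P + M)).take P ++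
      (((ψ a ++ Yb.take (P + M)).drop P).take M ++ ((ψ a ++ Yb.take (P + M)).drop P).drop M) := by
    rw [List.take_append_drop, List.take_append_drop]
  have e4 : (ψ a ++ Yb.take (P + M)).take P ++
      ((ψ a ++ Yb.take (P + M)).drop P).take M = ((a :: b :: z).flatMap ψ).take (P + M) := by
    rw [← List.take_add, e1, List.take_take]
    congr 1; omega
  have hl5 : (((ψ a ++ Yb.take (P + M)).drop P).take M).length = M := by
    rw [e2]
    have := hlen a
    simp [rv]; omega
  have i2 : GG M (ψ a ++ Yb.take (P + M)) = QQ ψ P M (a :: b :: z) +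
      GG M (rv ψ a ++ (rv ψ b).take M) := by
    unfold QQ GG
    conv_lhs => rw [e3]
    rw [gs_split _ _ _ _ hl5, e4, List.take_append_drop, e2]
  have e6 : rv ψ a ++ (rv ψ b).take M = (suf M (ψ b) ++ ψ a).reverse := by
    simp only [rv]
    rw [take_reverse', List.reverse_append]
  have hx : suf M (ψ b) ++ ψ a ∈ L := by
    have := hcl _ hba
    apply hL.infix_mem _ this
    refine ⟨(ψ b).take ((ψ b).length - M), [], ?_⟩
    simp only [List.flatMap_cons, List.flatMap_nil, List.append_nil]
    rw [← List.append_assoc, take_suf]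
  have i3 := GG_reverse hL hno hx (by simp only [List.length_append]; have := hlen a; omega)
  have e7 : (suf M (ψ b) ++ ψ a).take M = suf M (ψ b) := by
    rw [List.take_append_of_le_length (by rw [length_suf (hlen b)])]
    exact List.take_of_length_le (by rw [length_suf (hlen b)])
  rw [e7, suf_append _ (hlen a), claim0 hL hlen hpre hba] at i3
  rw [e6, i3] at i2
  unfold BB
  have t2 := zmod2_self (bet L ψ M b)
  have t3 := zmod2_self (Vf (suf M (ψ b)))
  linear_combination i1 - i2 - t2 - t3

include hL hcl hc hlen hpre hno in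
/-- `Q + β + B` does not change when the word is extended to the left. -/
theorem claim1' (s : List α) {b : α} {z : List α} (h : s ++ b :: z ∈ L)
    (hz : P + M ≤ ((b :: z).flatMap ψ).length) :
    ∃ c v, s ++ b :: z = c :: v ∧
      QQ ψ P M (c :: v) + (bet L ψ M c + BB ψ M c) =
      QQ ψ P M (b :: z) + (bet L ψ M b + BB ψ M b) := by
  induction s with
  | nil => exact ⟨b, z, rfl, rfl⟩
  | cons a s ih =>
    obtain ⟨c, v, hcv, hK⟩ := ih (hL.infix_mem ⟨[a], [], by simp⟩ h)
    refine ⟨a, c :: v, by rw [List.cons_append, hcv], ?_⟩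
    rw [← hK]
    apply claim1 hL hcl hc hlen hpre hno
    · rw [List.cons_append, hcv] at h; exact h
    · rw [← hcv, List.flatMap_append, List.length_append]; omega

include hL hcl hc hlen hpre hno in
theorem claim2 {x' z' : List α} {c b : α} (h : (x' ++ [c]) ++ (b :: z') ∈ L)
    (hz : P + M ≤ ((b :: z').flatMap ψ).length)
    (hx : P + M ≤ ((x' ++ [c]).flatMap ψ).length) :
    QQ ψ P M ((x' ++ [c]).reverse) + (bet L ψ M c + BB ψ M c) =
      QQ ψ P M (b :: z') + (bet L ψ M b + BB ψ M b) + 1 := by
  set z := b :: z' with hzdef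
  set x := x' ++ [c] with hxdef
  have hcb : [c, b] ∈ L := hL.infix_mem ⟨x', z', by simp [hxdef, hzdef]⟩ h
  have hbc : [b, c] ∈ L := by simpa using hL.reverse_mem hcb
  have hpb := pre_eq (L := L) hpre hcb
  have hpc := pre_eq (L := L) hpre hbc
  have hzL : z ∈ L := hL.infix_mem ⟨x, [], by simp⟩ h
  have hxL : x ∈ L := hL.infix_mem ⟨[], z, by simp⟩ h
  have hxrL : x.reverse ∈ L := hL.reverse_mem hxL
  set w := (z.flatMap ψ).take P with hw
  have hxr : (x.reverse.flatMap ψ).length = (x.flatMap ψ).length := length_flatMap_reverse ψ x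
  -- Fact 1
  have f1 : (x.reverse.flatMap ψ).take P = w.reverse := by
    have hy : z.reverse ++ x.reverse ∈ L := by
      rw [← List.reverse_append]; exact hL.reverse_mem h
    have hzr : (z.reverse.flatMap ψ).length = (z.flatMap ψ).length := length_flatMap_reverse ψ z
    apply List.ext_getElem?
    intro i
    by_cases hi : i < P
    · rw [List.getElem?_take_of_lt hi]
      have h1 := hc _ hy ((z.flatMap ψ).length - P + i) (by
        rw [List.flatMap_append, List.length_append, hzr, hxr]; omega)
      rw [List.flatMap_append, List.flatMap_append,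
        List.getElem?_append_right (by omega),
        List.getElem?_append_left (by rw [length_flatMap_rv, hzr]; omega)] at h1
      have e1 : (z.flatMap ψ).length - P + i + P - (z.reverse.flatMap ψ).length = i := by omega
      rw [e1] at h1
      have lt : ((z.flatMap ψ).take P).length = P := by rw [List.length_take]; omega
      rw [h1, ← reverse_flatMap', hw]
      rw [List.getElem?_reverse (by omega), List.getElem?_reverse (by omega), lt]
      rw [List.getElem?_take_of_lt (by omega)]
      congr 1
      omega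
    · rw [List.getElem?_take_eq_none (by omega)]
      symm
      apply List.getElem?_eq_none
      rw [List.length_reverse, hw, List.length_take]; omega
  have f2 : ((x.reverse.flatMap ψ).drop P).take M = (suf M (ψ c)).reverse := by
    rw [hc.take hxrL (by rw [hxr]; omega)]
    have : x.reverse = c :: x'.reverse := by simp [hxdef]
    rw [this, List.flatMap_cons, List.take_append_of_le_length (by simp [rv, hlen c])]
    simp only [rv]
    rw [take_reverse']
  set E := suf M (ψ c) ++ w with hE
  have f3 : (x.reverse.flatMap ψ).take (P + M) = E.reverse := by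
    rw [List.take_add, f1, f2, hE, List.reverse_append]
  have hwl : w.length = P := by rw [hw, List.length_take]; omega
  have hEl : E.length = M + P := by rw [hE, List.length_append, length_suf (hlen c), hwl]
  have hXL : suf M (ψ c) ++ (z.flatMap ψ).take (P + M) ∈ L := by
    apply hL.infix_mem _ (hcl _ h)
    refine ⟨(x'.flatMap ψ) ++ (ψ c).take ((ψ c).length - M), (z.flatMap ψ).drop (P + M), ?_⟩
    have e1 : x.flatMap ψ = x'.flatMap ψ ++ ψ c := by simp [hxdef]
    rw [List.flatMap_append, e1]
    conv_rhs => rw [← List.take_append_drop (P + M) (z.flatMap ψ), ← take_suf M (ψ c)]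
    simp only [List.append_assoc]
  have hEL : E ∈ L := by
    apply hL.infix_mem _ hXL
    refine ⟨[], ((z.flatMap ψ).drop P).take M, ?_⟩
    rw [List.take_add, hE, ← hw]; simp [List.append_assoc]
  have sE : suf M E = ((ψ c).take M).reverse := by
    have : E = (x.reverse.flatMap ψ |>.take (P + M)).reverse := by rw [f3]; simp
    rw [this, suf_reverse, List.take_take]
    have e1 : min M (P + M) = M := by omega
    have e2 : x.reverse = c :: x'.reverse := by simp [hxdef]
    rw [e1, e2, List.flatMap_cons, List.take_append_of_le_length (hlen c)]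
  have tE : E.take M = suf M (ψ c) := by
    rw [hE, List.take_append_of_le_length (by rw [length_suf (hlen c)])]
    exact List.take_of_length_le (by rw [length_suf (hlen c)])
  have q1 : QQ ψ P M x.reverse = GG M E + (BB ψ M c + Vf (suf M E)) := by
    unfold QQ
    rw [f3, GG_reverse hL hno hEL (by omega), tE]
    rfl
  have hpcL : (ψ c).take M ∈ L := by
    apply hL.infix_mem _ (hcl _ hcb)
    refine ⟨[], (ψ c).drop M ++ ψ b, ?_⟩
    simp only [List.nil_append, List.flatMap_cons, List.flatMap_nil, List.append_nil]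
    rw [← List.append_assoc, List.take_append_drop]
  have q2 : Vf (suf M E) = Vf (pre L ψ M b) + 1 := by
    rw [sE, Vf_reverse (hno _ hpcL (Or.inl (by simp [hlen c]))), hpc]
  -- splitting A
  have a1 : GG M (suf M (ψ c) ++ (z.flatMap ψ).take (P + M)) = bet L ψ M c + QQ ψ P M z := by
    have e1 : (z.flatMap ψ).take (P + M) =
        pre L ψ M c ++ ((z.flatMap ψ).take (P + M)).drop M := by
      have : ((z.flatMap ψ).take (P + M)).take M = pre L ψ M c := by
        rw [List.take_take, ← hpb]
        have : min M (P + M) = M := by omega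
        rw [this, hzdef, List.flatMap_cons, List.take_append_of_le_length (hlen b)]
      rw [← this, List.take_append_drop]
    have hprel : (pre L ψ M c).length = M := by rw [← hpb]; simp [hlen b]
    unfold bet QQ GG
    conv_lhs => rw [e1]
    rw [gs_split _ _ _ _ hprel, ← e1]
  -- splitting B
  have a2 : GG M (suf M (ψ c) ++ (z.flatMap ψ).take (P + M)) =
      GG M E + (bet L ψ M b + (BB ψ M b + Vf (suf M (suf M (ψ b) ++ (ψ c).take M)))) := by
    have e1 : (z.flatMap ψ).take (P + M) = w ++ (suf M (ψ b)).reverse := by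
      rw [List.take_add, ← hw, hc.take hzL (by omega), hzdef, List.flatMap_cons,
        List.take_append_of_le_length (by simp [rv, hlen b])]
      simp only [rv]
      rw [take_reverse']
    have e2 : suf M (ψ c) ++ (z.flatMap ψ).take (P + M) =
        E.take (E.length - M) ++ (suf M E ++ (suf M (ψ b)).reverse) := by
      rw [e1, ← List.append_assoc, ← List.append_assoc, ← hE, take_suf]
    have e3 : suf M E ++ (suf M (ψ b)).reverse = (suf M (ψ b) ++ (ψ c).take M).reverse := by
      rw [sE, List.reverse_append]
    have hL3 : suf M (ψ b) ++ (ψ c).take M ∈ L := by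
      apply hL.infix_mem _ (hcl _ hbc)
      refine ⟨(ψ b).take ((ψ b).length - M), (ψ c).drop M, ?_⟩
      simp only [List.flatMap_cons, List.flatMap_nil, List.append_nil]
      conv_rhs => rw [← List.take_append_drop M (ψ c), ← take_suf M (ψ b)]
      simp only [List.append_assoc]
    have hl : (suf M E).length = M := length_suf (by omega)
    have e4 : (suf M (ψ b) ++ (ψ c).take M).take M = suf M (ψ b) := by
      rw [List.take_append_of_le_length (by rw [length_suf (hlen b)])]
      exact List.take_of_length_le (by rw [length_suf (hlen b)])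
    have r := GG_reverse hL hno hL3 (by
      rw [List.length_append, length_suf (hlen b)]; omega)
    rw [e4] at r
    have e5 : GG M (suf M (ψ b) ++ (ψ c).take M) = bet L ψ M b := by
      rw [hpc]; rfl
    rw [e5] at r
    have : GG M (E.take (E.length - M) ++ (suf M E ++ (suf M (ψ b)).reverse)) =
        GG M E + GG M (suf M E ++ (suf M (ψ b)).reverse) := by
      unfold GG
      rw [gs_split _ _ _ _ hl, take_suf]
    rw [e2, this, e3, r]
    rfl
  have a3 : suf M (suf M (ψ b) ++ (ψ c).take M) = pre L ψ M b := by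
    rw [suf_append _ (by simp [hlen c]), hpc]
    have hl : (pre L ψ M b).length = M := by rw [← hpc]; simp [hlen c]
    unfold suf
    rw [hl]; simp
  rw [a3] at a2
  rw [q1, q2]
  have t1 := zmod2_self (bet L ψ M b)
  have t2 := zmod2_self (BB ψ M b)
  have t4 := zmod2_self (bet L ψ M c)
  have t5 := zmod2_self (BB ψ M c)
  linear_combination a1 - a2 - t1 - t2 + t4 + t5

end Main

section Final

variable {L : Set (List α)}

/-- The parity theorem. -/
theorem parity (hL : Lang L) {ψ : α → List α}
    (hcl : ∀ w ∈ L, w.flatMap ψ ∈ L) {P M : ℕ} (hM : 1 ≤ M) (hc : Conj L ψ P)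
    (hlen : ∀ a, M ≤ (ψ a).length)
    (hpre : ∀ a b b', [a, b] ∈ L → [a, b'] ∈ L → (ψ b).take M = (ψ b').take M) :
    ∃ w ∈ L, w.reverse = w ∧ (w.length = M ∨ w.length = M + 1) := by
  by_contra hcon
  have hno : ∀ w ∈ L, (w.length = M ∨ w.length = M + 1) → w.reverse ≠ w := by
    intro w hw hl he
    exact hcon ⟨w, hw, he, hl⟩
  have hψ : ∀ a, 1 ≤ (ψ a).length := fun a => le_trans hM (hlen a)
  set r := P + M + 1 with hr
  obtain ⟨y0, hy0, hy0l⟩ := hL.long (2 * r)
  set x := y0.take r with hx
  set z := (y0.drop r).take r with hz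
  have hyL : x ++ z ∈ L := by
    apply hL.infix_mem _ hy0
    refine ⟨[], (y0.drop r).drop r, ?_⟩
    rw [List.nil_append, List.append_assoc, List.take_append_drop, List.take_append_drop]
  have hxl : x.length = r := by rw [hx, List.length_take]; omega
  have hzl : z.length = r := by rw [hz, List.length_take, List.length_drop]; omega
  obtain ⟨x', c, hxc⟩ : ∃ x' c, x = x' ++ [c] := by
    refine ⟨x.dropLast, x.getLast (by intro h; rw [h] at hxl; simp at hxl), ?_⟩
    exact (List.dropLast_append_getLast _).symm
  obtain ⟨b, z', hzb⟩ : ∃ b z', z = b :: z' := by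
    cases hzz : z with
    | nil => rw [hzz] at hzl; simp at hzl
    | cons b z' => exact ⟨b, z', rfl⟩
  obtain ⟨N1, hN1⟩ := hL.recur _ hyL
  have hyrL := hL.reverse_mem hyL
  obtain ⟨N2, hN2⟩ := hL.recur _ hyrL
  obtain ⟨U, hU, hUl⟩ := hL.long (N1 + N2)
  obtain ⟨s, e, hs⟩ := hN1 U hU (by omega)
  obtain ⟨s', e', hs'⟩ := hN2 U hU (by omega)
  have lz : P + M ≤ (z.flatMap ψ).length := by
    have := length_le_flatMap hψ z; omega
  have lx : P + M ≤ (x.flatMap ψ).length := by
    have := length_le_flatMap hψ x; omega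
  have lxr : P + M ≤ (x.reverse.flatMap ψ).length := by
    rw [length_flatMap_reverse]; exact lx
  -- `Q` only depends on a prefix
  have hQ : ∀ v v' : List α, P + M ≤ (v.flatMap ψ).length → QQ ψ P M (v ++ v') = QQ ψ P M v := by
    intro v v' hv
    unfold QQ
    rw [List.flatMap_append, List.take_append_of_le_length hv]
  -- along `U`
  have hU1 : (s ++ x) ++ b :: (z' ++ e) = U := by
    rw [← hs, hzb]; simp [List.append_assoc]
  have hxr : x.reverse = c :: x'.reverse := by rw [hxc]; simp
  have hU2 : (s' ++ z.reverse) ++ c :: (x'.reverse ++ e') = U := by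
    rw [← hs', List.reverse_append, hxr]; simp [List.append_assoc]
  obtain ⟨c1, v1, h1, k1⟩ := claim1' hL hcl hc hlen hpre hno (s ++ x) (b := b) (z := z' ++ e)
    (by rw [hU1]; exact hU) (by
      have : b :: (z' ++ e) = z ++ e := by rw [hzb]; simp
      rw [this, List.flatMap_append, List.length_append]; omega)
  obtain ⟨c2, v2, h2, k2⟩ := claim1' hL hcl hc hlen hpre hno (s' ++ z.reverse) (b := c)
    (z := x'.reverse ++ e')
    (by rw [hU2]; exact hU) (by
      have : c :: (x'.reverse ++ e') = x.reverse ++ e' := by rw [hxr]; simp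
      rw [this, List.flatMap_append, List.length_append]; omega)
  rw [hU1] at h1
  rw [hU2] at h2
  rw [h1] at h2
  obtain ⟨rfl, rfl⟩ : c1 = c2 ∧ v1 = v2 := by simpa using h2
  have e1 : b :: (z' ++ e) = z ++ e := by rw [hzb]; simp
  have e2 : c :: (x'.reverse ++ e') = x.reverse ++ e' := by rw [hxr]; simp
  rw [e1, hQ z e lz] at k1
  rw [e2, hQ _ e' lxr] at k2
  have k3 := claim2 hL hcl hc hlen hpre hno (x' := x') (z' := z') (c := c) (b := b)
    (by rw [← hxc, ← hzb]; exact hyL) (by rw [← hzb]; exact lz) (by rw [← hxc]; exact lx)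
  rw [← hxc, ← hzb] at k3
  rw [k2] at k1
  rw [k1] at k3
  have : (0 : ZMod 2) = 1 := by linear_combination k3
  exact absurd this (by decide)

end Final

end Pool.Agent.Helper78.Pal
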