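import Pool.Agent.Helper78.Pal.Basic

set_option autoImplicit false

/-!
Step 1 (pigeonhole): arbitrarily high powers of `φ` are conjugate to their reversal on `L`.
-/

namespace Pool.Agent.Helper78.Pal

variable {α : Type}

/-- A word with period `d` and length at least `K * d` starts with a `K`-th power. -/
theorem take_period (d : ℕ) (W : List α) (hW : ∀ j, j + d < W.length → W[j + d]? = W[j]?)
    (K : ℕ) (hK : K * d ≤ W.length) :
    W.take (K * d) = (List.replicate K (W.take d)).flatten := by
  induction K with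
  | zero => simp
  | succ K ih =>
    have h1 : K * d ≤ W.length := by nlinarith
    rw [List.replicate_succ, List.flatten_cons, ← ih h1]
    have h2 : (K + 1) * d = d + K * d := by ring
    rw [h2, List.take_add]
    congr 1
    apply List.ext_getElem?
    intro i
    by_cases hi : i < K * d
    · rw [List.getElem?_take_of_lt hi, List.getElem?_take_of_lt hi, List.getElem?_drop,
        Nat.add_comm d i]
      exact hW i (by rw [h2] at hK; omega)
    · rw [List.getElem?_take_eq_none (by omega), List.getElem?_take_eq_none (by omega)]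

/-- Locate a position in `V.flatMap ψ`. -/
theorem split_pos (ψ : α → List α) (V : List α) (q : ℕ) (hq : q < (V.flatMap ψ).length) :
    ∃ V1 b V2, V = V1 ++ b :: V2 ∧ (V1.flatMap ψ).length ≤ q ∧
      q < (V1.flatMap ψ).length + (ψ b).length := by
  induction V generalizing q with
  | nil => simp at hq
  | cons a V ih =>
    by_cases h : q < (ψ a).length
    · exact ⟨[], a, V, rfl, by simp, by simpa using h⟩
    · rw [List.flatMap_cons, List.length_append] at hq
      obtain ⟨V1, b, V2, h1, h2, h3⟩ := ih (q - (ψ a).length) (by omega)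
      refine ⟨a :: V1, b, V2, by rw [h1]; rfl, ?_, ?_⟩
      · rw [List.flatMap_cons, List.length_append]; omega
      · rw [List.flatMap_cons, List.length_append]; omega

theorem mul_le_flatMap {ψ : α → List α} {C l : ℕ} (h : ∀ b, l ≤ C * (ψ b).length)
    (t : List α) : t.length * l ≤ C * (t.flatMap ψ).length := by
  induction t with
  | nil => simp
  | cons a t ih =>
    rw [List.flatMap_cons, List.length_append, List.length_cons]
    have := h a
    nlinarith

/-- A prefix of a longer prefix, drop version. -/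
theorem conj_of_long {L : Set (List α)} (hL : Lang L) {ψ : α → List α} {P : ℕ}
    (h : ∀ N, ∃ x ∈ L, N ≤ x.length ∧ (x.flatMap ψ).drop P <+: x.flatMap (rv ψ)) :
    Conj L ψ P := by
  intro v hv j hj
  obtain ⟨N, hN⟩ := hL.recur v hv
  obtain ⟨x, hx, hxl, hpre⟩ := h N
  obtain ⟨s, t, hst⟩ := hN x hx hxl
  have e1 : x.flatMap ψ = s.flatMap ψ ++ (v.flatMap ψ ++ t.flatMap ψ) := by
    rw [← hst]; simp [List.flatMap_append, List.append_assoc]
  have e2 : x.flatMap (rv ψ) = s.flatMap (rv ψ) ++ (v.flatMap (rv ψ) ++ t.flatMap (rv ψ)) := by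
    rw [← hst]; simp [List.flatMap_append, List.append_assoc]
  have l1 := length_flatMap_rv ψ s
  have l2 := length_flatMap_rv ψ v
  obtain ⟨r, hr⟩ := hpre
  have l3 : (s.flatMap ψ).length + (v.flatMap ψ).length ≤ (x.flatMap ψ).length := by
    rw [e1]; simp only [List.length_append]; omega
  have k1 : (x.flatMap (rv ψ))[(s.flatMap ψ).length + j]? =
      (x.flatMap ψ)[(s.flatMap ψ).length + j + P]? := by
    rw [← hr, List.getElem?_append_left (by rw [List.length_drop]; omega), List.getElem?_drop]
    congr 1; omega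
  rw [e2, ← l1, List.getElem?_append_right (by omega), Nat.add_sub_cancel_left,
    List.getElem?_append_left (by omega)] at k1
  rw [k1, e1, l1]
  have : (s.flatMap ψ).length + j + P = (s.flatMap ψ).length + (j + P) := by omega
  rw [this, List.getElem?_append_right (by omega), Nat.add_sub_cancel_left,
    List.getElem?_append_left hj]

section Codes

variable (L : Set (List α)) (φ : α → List α) (K : ℕ) (l0 M0 : ℕ)

/-- Codes of cuts. -/
abbrev Code (α : Type) (l0 M0 : ℕ) : Type := α × {β : List α // β.length ≤ l0} × Fin M0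

instance [Finite α] : Finite (Code α l0 M0) := by
  have : Finite {β : List α // β.length ≤ l0} := (List.finite_length_le α l0).to_subtype
  infer_instance

/-- `o` is an admissible offset of an occurrence of the reversed image of `c` in the image
of `β`. -/
def Good (n : ℕ) (c : α) (β : List α) (o : ℕ) : Prop :=
  β ∈ L ∧ (∃ b t, β = b :: t ∧ o < (pw φ n b).length) ∧
    rv (pw φ n) c <+: (β.flatMap (pw φ n)).drop o

open Classical in
/-- The offset with given code. -/
noncomputable def ee (n : ℕ) (σ : Code α l0 M0) : ℕ :=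
  if h : ∃ o, Good L φ n σ.1 σ.2.1.1 o ∧ K * o / (pw φ n σ.1).length = (σ.2.2 : ℕ)
  then h.choose else 0

/-- The transition relation at level `n`. -/
def TT (n : ℕ) : Set (Code α l0 M0 × Code α l0 M0) :=
  {p | p.1.2.1.1 ≠ [] ∧ p.2.2.1.1.head? = p.1.2.1.1.getLast? ∧
    ee L φ K l0 M0 n p.1 + (pw φ n p.1.1).length =
      (p.1.2.1.1.dropLast.flatMap (pw φ n)).length + ee L φ K l0 M0 n p.2 ∧
    rv (pw φ n) p.1.1 <+: (p.1.2.1.1.flatMap (pw φ n)).drop (ee L φ K l0 M0 n p.1)}

/-- Paths: `Path T V V' σ` says that `V` and `V'` are superposed, starting with code `σ`. -/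
inductive Path (T : Set (Code α l0 M0 × Code α l0 M0)) :
    List α → List α → Code α l0 M0 → Prop
  | nil (V' : List α) (σ : Code α l0 M0) (h : V'.head? = σ.2.1.1.head?) : Path T [] V' σ
  | cons (V V1 : List α) (σ σ1 : Code α l0 M0) (h : (σ, σ1) ∈ T)
      (hne : σ.2.1.1 ≠ []) (hh : σ1.2.1.1.head? = σ.2.1.1.getLast?)
      (hp : Path T V V1 σ1) : Path T (σ.1 :: V) (σ.2.1.1.dropLast ++ V1) σ

variable {L φ K l0 M0}

theorem prefix_dropLast_append {β V1 : List α} (hne : β ≠ []) (h : V1.head? = β.getLast?) :
    β <+: β.dropLast ++ V1 := by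
  have e1 : β.getLast? = some (β.getLast hne) := List.getLast?_eq_some_getLast hne
  rw [e1] at h
  cases V1 with
  | nil => simp at h
  | cons b t =>
    simp only [List.head?_cons, Option.some.injEq] at h
    refine ⟨t, ?_⟩
    conv_lhs => rw [← List.dropLast_append_getLast hne]
    rw [List.append_assoc, h]; rfl

theorem head?_of_prefix {β W : List α} (hne : β ≠ []) (h : β <+: W) : W.head? = β.head? := by
  obtain ⟨t, rfl⟩ := h
  cases β with
  | nil => exact absurd rfl hne
  | cons b β => rfl

theorem Path.head {T : Set (Code α l0 M0 × Code α l0 M0)} {V V' : List α} {σ : Code α l0 M0}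
    (hp : Path l0 M0 T V V' σ) : V'.head? = σ.2.1.1.head? := by
  induction hp with
  | nil V' σ h => exact h
  | cons V V1 σ σ1 h hne hh hp ih =>
    exact head?_of_prefix hne (prefix_dropLast_append hne (by rw [ih, hh]))

/-- Soundness. -/
theorem Path.sound {n : ℕ} {V V' : List α} {σ : Code α l0 M0}
    (hp : Path l0 M0 (TT L φ K l0 M0 n) V V' σ) :
    V.flatMap (rv (pw φ n)) <+: (V'.flatMap (pw φ n)).drop (ee L φ K l0 M0 n σ) := by
  induction hp with
  | nil V' σ h => simp
  | cons V V1 σ σ1 h hne hh hp ih =>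
    obtain ⟨_, _, heq, hpre⟩ := h
    simp only at heq hpre
    have h1 : σ.2.1.1 <+: σ.2.1.1.dropLast ++ V1 :=
      prefix_dropLast_append hne (by rw [hp.head, hh])
    have h2 : σ.2.1.1.flatMap (pw φ n) <+: (σ.2.1.1.dropLast ++ V1).flatMap (pw φ n) := by
      obtain ⟨t, ht⟩ := h1
      exact ⟨t.flatMap (pw φ n), by rw [← List.flatMap_append, ht]⟩
    have h3 := hpre.trans (h2.drop (ee L φ K l0 M0 n σ))
    obtain ⟨t, ht⟩ := h3
    have h4 : t = (V1.flatMap (pw φ n)).drop (ee L φ K l0 M0 n σ1) := by
      have e1 : t = (rv (pw φ n) σ.1 ++ t).drop (pw φ n σ.1).length := by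
        rw [List.drop_append]
        simp [rv]
      rw [e1, ht, List.drop_drop, heq, List.flatMap_append, List.drop_append]
      rw [List.drop_eq_nil_of_le (by omega), List.nil_append]
      congr 1; omega
    rw [List.flatMap_cons, ← ht, h4]
    exact List.prefix_append_right_inj _ |>.mpr ih

/-- Uniqueness of the offset with given code. -/
theorem good_unique (hL : Lang L) {n : ℕ} (hcl : ∀ w ∈ L, w.flatMap (pw φ n) ∈ L)
    (hK : ∀ z : List α, z ≠ [] → (List.replicate K z).flatten ∉ L)
    {c : α} {β : List α} {o o' : ℕ} (h : Good L φ n c β o) (h' : Good L φ n c β o')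
    (hlt : o < o') (hl : 1 ≤ (pw φ n c).length)
    (heq : K * o / (pw φ n c).length = K * o' / (pw φ n c).length) : False := by
  obtain ⟨hβ, ⟨b, t, hbt, ho⟩, hpre⟩ := h
  obtain ⟨_, ⟨b', t', hbt', ho'⟩, hpre'⟩ := h'
  set W := rv (pw φ n) c with hW
  have hWl : W.length = (pw φ n c).length := by simp [hW, rv]
  set Z := β.flatMap (pw φ n) with hZ
  have hZL : Z ∈ L := hcl β hβ
  have hWL : W ∈ L := by
    apply hL.infix_mem _ hZL
    exact hpre.isInfix.trans (List.drop_suffix _ _).isInfix
  -- the period
  obtain ⟨d, hd⟩ : ∃ d, o' = o + d := ⟨o' - o, by omega⟩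
  have hd0 : 0 < d := by omega
  have hKd : K * d < W.length := by
    rw [hWl]
    have h1 := Nat.div_add_mod (K * o) (pw φ n c).length
    have h2 := Nat.div_add_mod (K * o') (pw φ n c).length
    rw [← heq] at h2
    have h3 := Nat.mod_lt (K * o') (show (pw φ n c).length > 0 by omega)
    rw [hd, Nat.mul_add] at h2 h3
    omega
  have hper : ∀ j, j + d < W.length → W[j + d]? = W[j]? := by
    intro j hj
    obtain ⟨r, hr⟩ := hpre
    obtain ⟨r', hr'⟩ := hpre'
    have e1 : W[j + d]? = (Z.drop o)[j + d]? := by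
      rw [← hr, List.getElem?_append_left hj]
    have e2 : W[j]? = (Z.drop o')[j]? := by
      rw [← hr', List.getElem?_append_left (by omega)]
    rw [e1, e2, List.getElem?_drop, List.getElem?_drop, hd]
    congr 1; omega
  have hpow := take_period d W hper K hKd.le
  apply hK (W.take d)
  · intro h0
    have : (W.take d).length = 0 := by rw [h0]; rfl
    rw [List.length_take] at this
    have : 0 < W.length := by omega
    omega
  · rw [← hpow]
    exact hL.infix_mem (List.take_prefix _ _).isInfix hWL

/-- The code map is a right inverse of `ee`. -/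
theorem ee_eq (hL : Lang L) {n : ℕ} (hcl : ∀ w ∈ L, w.flatMap (pw φ n) ∈ L)
    (hK : ∀ z : List α, z ≠ [] → (List.replicate K z).flatten ∉ L)
    {σ : Code α l0 M0} {o : ℕ} (h : Good L φ n σ.1 σ.2.1.1 o)
    (hl : 1 ≤ (pw φ n σ.1).length)
    (heq : K * o / (pw φ n σ.1).length = (σ.2.2 : ℕ)) : ee L φ K l0 M0 n σ = o := by
  have hex : ∃ o, Good L φ n σ.1 σ.2.1.1 o ∧
      K * o / (pw φ n σ.1).length = (σ.2.2 : ℕ) := ⟨o, h, heq⟩
  unfold ee
  rw [dif_pos hex]
  obtain ⟨h1, h2⟩ := hex.choose_spec
  rcases lt_trichotomy hex.choose o with h3 | h3 | h3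
  · exact (good_unique hL hcl hK h1 h h3 hl (by rw [h2, heq])).elim
  · exact h3
  · exact (good_unique hL hcl hK h h1 h3 hl (by rw [h2, heq])).elim

theorem ee_le {n : ℕ} {Bm : ℕ} (hB : ∀ b, (pw φ n b).length ≤ Bm) (σ : Code α l0 M0) :
    ee L φ K l0 M0 n σ ≤ Bm := by
  unfold ee
  split_ifs with h
  · obtain ⟨⟨_, ⟨b, t, _, ho⟩, _⟩, _⟩ := h.choose_spec
    exact le_trans ho.le (hB b)
  · exact Nat.zero_le _

/-- Completeness. -/
theorem Path.complete (hL : Lang L) {n C : ℕ} (hcl : ∀ w ∈ L, w.flatMap (pw φ n) ∈ L)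
    (hK : ∀ z : List α, z ≠ [] → (List.replicate K z).flatten ∉ L)
    (hC : ∀ a b, (pw φ n a).length ≤ C * (pw φ n b).length)
    (hne : ∀ a, 1 ≤ (pw φ n a).length)
    (V V' : List α) (o : ℕ) (hV : V ≠ []) (hV' : V' ∈ L)
    (ho : ∃ b t, V' = b :: t ∧ o < (pw φ n b).length)
    (hpre : V.flatMap (rv (pw φ n)) <+: (V'.flatMap (pw φ n)).drop o)
    (hlt : o + (V.flatMap (pw φ n)).length < (V'.flatMap (pw φ n)).length) :
    ∃ σ : Code α (C + 1) (K * C + 1),
      Path (C + 1) (K * C + 1) (TT L φ K (C + 1) (K * C + 1) n) V.dropLast V' σ ∧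
      ee L φ K (C + 1) (K * C + 1) n σ = o := by
  induction V generalizing V' o with
  | nil => exact absurd rfl hV
  | cons c V ih =>
    obtain ⟨b, t, hbt, hob⟩ := ho
    set ψ := pw φ n with hψ
    have hcl0 : (ψ c).length ≤ ((c :: V).flatMap ψ).length := by
      rw [List.flatMap_cons, List.length_append]; omega
    obtain ⟨V1, b1, V2, hsplit, hle, hlt2⟩ := split_pos ψ V' (o + (ψ c).length) (by omega)
    -- the block
    have hβL : V1 ++ [b1] ∈ L := by
      apply hL.infix_mem _ hV'
      exact ⟨[], V2, by rw [hsplit]; simp⟩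
    have hβlen : (V1 ++ [b1]).length ≤ C + 1 := by
      rw [List.length_append, List.length_singleton]
      cases V1 with
      | nil => simp
      | cons b2 t1 =>
        have hb2 : b2 = b := by
          rw [hbt] at hsplit
          simp only [List.cons_append, List.cons.injEq] at hsplit
          exact hsplit.1.symm
        subst hb2
        rw [List.flatMap_cons, List.length_append] at hle
        have h1 : (t1.flatMap ψ).length < (ψ c).length := by omega
        have h2 := mul_le_flatMap (C := C) (l := (ψ c).length) (fun b => hC c b) t1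
        have h3 : t1.length < C := by
          by_contra hcon
          have h4 : C ≤ t1.length := by omega
          have h5 : C * (ψ c).length ≤ t1.length * (ψ c).length := Nat.mul_le_mul_right _ h4
          have h6 : 0 < C := by
            rcases Nat.eq_zero_or_pos C with h | h
            · have := hC c c; rw [h] at this; have := hne c; omega
            · exact h
          have h7 : C * (t1.flatMap ψ).length < C * (ψ c).length :=
            Nat.mul_lt_mul_of_pos_left h1 h6
          omega
        simp; omega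
    have hβhead : ∃ t', V1 ++ [b1] = b :: t' := by
      cases V1 with
      | nil =>
        rw [hbt] at hsplit
        simp only [List.nil_append, List.cons.injEq] at hsplit
        exact ⟨[], by rw [hsplit.1]; rfl⟩
      | cons b2 t1 =>
        rw [hbt] at hsplit
        simp only [List.cons_append, List.cons.injEq] at hsplit
        exact ⟨t1 ++ [b1], by rw [hsplit.1]; rfl⟩
    have hβl : o + (ψ c).length ≤ ((V1 ++ [b1]).flatMap ψ).length := by
      rw [List.flatMap_append, List.length_append]
      simp only [List.flatMap_cons, List.flatMap_nil, List.append_nil]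
      omega
    have hβpre : (V1 ++ [b1]).flatMap ψ <+: V'.flatMap ψ := by
      rw [hsplit]
      exact ⟨V2.flatMap ψ, by simp [List.flatMap_append, List.append_assoc]⟩
    have hVal : rv ψ c <+: ((V1 ++ [b1]).flatMap ψ).drop o := by
      have h1 : rv ψ c <+: (V'.flatMap ψ).drop o := by
        refine List.IsPrefix.trans ?_ hpre
        rw [List.flatMap_cons]
        exact List.prefix_append _ _
      exact List.prefix_of_prefix_length_le h1 (hβpre.drop o) (by
        rw [List.length_drop]
        have : (rv ψ c).length = (ψ c).length := by simp [rv]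
        omega)
    obtain ⟨t', ht'⟩ := hβhead
    have hGood : Good L φ n c (V1 ++ [b1]) o := ⟨hβL, ⟨b, t', ht', hob⟩, hVal⟩
    have hf : K * o / (ψ c).length < K * C + 1 := by
      rw [Nat.lt_succ_iff]
      apply Nat.div_le_of_le_mul
      have h1 := hC b c
      have h2 : o ≤ C * (ψ c).length := by omega
      calc K * o ≤ K * (C * (ψ c).length) := Nat.mul_le_mul_left _ h2
        _ = (ψ c).length * (K * C) := by ring
    let σ : Code α (C + 1) (K * C + 1) :=
      (c, ⟨V1 ++ [b1], hβlen⟩, ⟨K * o / (ψ c).length, hf⟩)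
    have hee : ee L φ K (C + 1) (K * C + 1) n σ = o :=
      ee_eq hL hcl hK (σ := σ) hGood (hne c) rfl
    cases V with
    | nil =>
      refine ⟨σ, ?_, hee⟩
      apply Path.nil
      rw [hbt]
      simp only [σ]
      rw [ht']; rfl
    | cons c1 V3 =>
      have hdropeq : (V'.flatMap ψ).drop (o + (ψ c).length) =
          ((b1 :: V2).flatMap ψ).drop (o + (ψ c).length - (V1.flatMap ψ).length) := by
        rw [hsplit, List.flatMap_append, List.drop_append, List.drop_eq_nil_of_le hle,
          List.nil_append]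
      have hpre2 : (c1 :: V3).flatMap (rv ψ) <+:
          ((b1 :: V2).flatMap ψ).drop (o + (ψ c).length - (V1.flatMap ψ).length) := by
        have h1 := hpre.drop (ψ c).length
        rw [List.flatMap_cons, List.drop_append] at h1
        have h2 : (rv ψ c).length = (ψ c).length := by simp [rv]
        rw [List.drop_eq_nil_of_le (by omega), List.nil_append, h2, Nat.sub_self,
          List.drop_zero, List.drop_drop, hdropeq] at h1
        exact h1
      have hlen2 : ((c :: c1 :: V3).flatMap ψ).length = (ψ c).length +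
          ((c1 :: V3).flatMap ψ).length := by
        rw [List.flatMap_cons, List.length_append]
      have hlen3 : (V'.flatMap ψ).length = (V1.flatMap ψ).length +
          ((b1 :: V2).flatMap ψ).length := by
        rw [hsplit, List.flatMap_append, List.length_append]
      obtain ⟨σ1, hp1, he1⟩ := ih (b1 :: V2) (o + (ψ c).length - (V1.flatMap ψ).length)
        (by simp) (hL.infix_mem ⟨V1, [], by rw [hsplit]; simp⟩ hV')
        ⟨b1, V2, rfl, by omega⟩ hpre2 (by omega)
      have hσβ : σ.2.1.1 = V1 ++ [b1] := rfl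
      have hh : σ1.2.1.1.head? = σ.2.1.1.getLast? := by
        rw [← hp1.head, hσβ]; simp
      have hT : (σ, σ1) ∈ TT L φ K (C + 1) (K * C + 1) n := by
        refine ⟨by simp [σ], hh, ?_, ?_⟩
        · show ee L φ K (C + 1) (K * C + 1) n σ + (pw φ n c).length = _
          rw [hee, he1, hσβ, List.dropLast_concat]
          show o + (ψ c).length = (V1.flatMap ψ).length + _
          omega
        · show rv ψ c <+: _
          rw [hee]; exact hVal
      refine ⟨σ, ?_, hee⟩
      have := Path.cons (c1 :: V3).dropLast (b1 :: V2) σ σ1 hT (by simp [σ]) hh hp1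
      rw [hσβ, List.dropLast_concat, ← hsplit] at this
      exact this

end Codes

/-- Step 1: there are arbitrarily high powers of `φ` that are conjugate to their reversal. -/
theorem step1 [Finite α] {L : Set (List α)} (hL : Lang L) {φ : α → List α}
    (hcl : ∀ n, ∀ w ∈ L, w.flatMap (pw φ n) ∈ L)
    (hdes : ∀ n, ∀ w ∈ L, ∃ V ∈ L, w <:+: V.flatMap (pw φ n))
    {C : ℕ} (hC : ∀ n a b, (pw φ n a).length ≤ C * (pw φ n b).length)
    (hne : ∀ n a, 1 ≤ (pw φ n a).length)
    {K : ℕ} (hK : ∀ z : List α, z ≠ [] → (List.replicate K z).flatten ∉ L) (k0 : ℕ)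
    (_hk0 : 1 ≤ k0) :
    ∃ k ≥ k0, ∃ P, Conj L (pw φ k) P ∨ Conj L (pw (rv φ) k) P := by
  classical
  obtain ⟨i, j, hij, hT⟩ : ∃ i j, i < j ∧
      TT L φ K (C + 1) (K * C + 1) (k0 * i) = TT L φ K (C + 1) (K * C + 1) (k0 * j) := by
    obtain ⟨i, j, hne, h⟩ := Finite.exists_ne_map_eq_of_infinite
      (fun i : ℕ => TT L φ K (C + 1) (K * C + 1) (k0 * i))
    rcases lt_or_gt_of_ne hne with h1 | h1
    · exact ⟨i, j, h1, h⟩
    · exact ⟨j, i, h1, h.symm⟩
  set n := k0 * i with hn
  obtain ⟨k, hk, hmk⟩ : ∃ k, k0 ≤ k ∧ k0 * j = n + k := by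
    refine ⟨k0 * (j - i), ?_, ?_⟩
    · have : 1 ≤ j - i := by omega
      exact Nat.le_mul_of_pos_right _ this
    · rw [hn, ← Nat.mul_add]; congr 1; omega
  rw [hmk] at hT
  -- bound
  obtain ⟨Bm, hBm⟩ : ∃ Bm, ∀ b, (pw φ (n + k) b).length ≤ Bm := by
    obtain ⟨B, hB⟩ := (Set.finite_range (fun b => (pw φ (n + k) b).length)).bddAbove
    exact ⟨B, fun b => hB ⟨b, rfl⟩⟩
  -- main relation
  have main : ∀ N, ∃ x ∈ L, N ≤ x.length ∧ ∃ P ≤ Bm,
      ((x.flatMap (pw φ k)).drop P <+: x.flatMap (rv (pw φ k)) ∨
       (x.flatMap (rv (pw φ k))).drop P <+: x.flatMap (pw φ k)) := by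
    intro N
    obtain ⟨V, hV, hVl⟩ := hL.long (N + 2)
    have hvL : V.flatMap (rv (pw φ n)) ∈ L := by
      rw [flatMap_rv]
      exact hL.reverse_mem (hcl n _ (hL.reverse_mem hV))
    obtain ⟨b0, hb0⟩ := hL.extend_right hvL
    obtain ⟨V0, hV0, s, t, hst⟩ := hdes n _ hb0
    have hlen0 : s.length + (V.flatMap (rv (pw φ n))).length + 1 ≤
        (V0.flatMap (pw φ n)).length := by
      rw [← hst]; simp only [List.length_append, List.length_singleton]; omega
    obtain ⟨Va, b1, Vb, hsplit, hle, hlt⟩ := split_pos (pw φ n) V0 s.length (by omega)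
    have hV'L : b1 :: Vb ∈ L := hL.infix_mem ⟨Va, [], by rw [hsplit]; simp⟩ hV0
    set o := s.length - (Va.flatMap (pw φ n)).length with ho
    have hdrop : ((b1 :: Vb).flatMap (pw φ n)).drop o =
        V.flatMap (rv (pw φ n)) ++ ([b0] ++ t) := by
      have h1 : (V0.flatMap (pw φ n)).drop s.length = V.flatMap (rv (pw φ n)) ++ ([b0] ++ t) := by
        rw [← hst, List.append_assoc, List.drop_append, List.drop_eq_nil_of_le le_rfl]
        simp [List.append_assoc]
      rw [← h1, hsplit, List.flatMap_append, List.drop_append, List.drop_eq_nil_of_le hle,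
        List.nil_append]
    have hpre : V.flatMap (rv (pw φ n)) <+: ((b1 :: Vb).flatMap (pw φ n)).drop o := by
      rw [hdrop]; exact List.prefix_append _ _
    have hlenV := length_flatMap_rv (pw φ n) V
    have hlt3 : o + (V.flatMap (pw φ n)).length < ((b1 :: Vb).flatMap (pw φ n)).length := by
      have h1 : (V0.flatMap (pw φ n)).length = (Va.flatMap (pw φ n)).length +
          ((b1 :: Vb).flatMap (pw φ n)).length := by
        rw [hsplit, List.flatMap_append, List.length_append]
      omega
    have hVne : V ≠ [] := by intro h; rw [h] at hVl; simp at hVl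
    obtain ⟨σ, hpath, hee⟩ := Path.complete hL (hcl n) hK (hC n) (hne n) V (b1 :: Vb) o hVne
      hV'L ⟨b1, Vb, rfl, by omega⟩ hpre hlt3
    have s1 := hpath.sound
    rw [hT] at hpath
    have s2 := hpath.sound
    rw [hee] at s1
    set x := V.dropLast.flatMap (rv (pw φ n)) with hx
    have hxL : x ∈ L := by
      apply hL.infix_mem _ hvL
      exact infix_flatMap (List.dropLast_prefix V).isInfix
    have hxl : N ≤ x.length := by
      have h1 : V.dropLast.length ≤ x.length := by
        rw [hx, length_flatMap_rv]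
        exact length_le_flatMap (hne n) _
      rw [List.length_dropLast] at h1
      omega
    have e1 : V.dropLast.flatMap (rv (pw φ (n + k))) = x.flatMap (rv (pw φ k)) := by
      rw [← pw_rv, flatMap_pw_add, pw_rv, pw_rv]
    have e2 : (b1 :: Vb).flatMap (pw φ (n + k)) =
        ((b1 :: Vb).flatMap (pw φ n)).flatMap (pw φ k) := flatMap_pw_add _ _ _ _
    rw [e1] at s2
    set q1 := ee L φ K (C + 1) (K * C + 1) (n + k) σ with hq1
    have hq1le : q1 ≤ Bm := ee_le hBm σ
    set Z := (b1 :: Vb).flatMap (pw φ (n + k)) with hZ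
    set s0 := ((b1 :: Vb).flatMap (pw φ n)).take o with hs0
    have hsplit2 : (b1 :: Vb).flatMap (pw φ n) =
        s0 ++ ((b1 :: Vb).flatMap (pw φ n)).drop o := (List.take_append_drop _ _).symm
    set q2 := (s0.flatMap (pw φ k)).length with hq2
    have hq2le : q2 ≤ Bm := by
      have h1 : s0 = (pw φ n b1).take o := by
        rw [hs0, List.flatMap_cons, List.take_append_of_le_length (by omega)]
      have h2 : s0.flatMap (pw φ k) <:+: pw φ (n + k) b1 := by
        rw [h1, pw_add]
        exact infix_flatMap (List.take_prefix _ _).isInfix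
      exact le_trans h2.length_le (hBm b1)
    have s3 : x.flatMap (pw φ k) <+: Z.drop q2 := by
      have h1 : Z = s0.flatMap (pw φ k) ++
          (((b1 :: Vb).flatMap (pw φ n)).drop o).flatMap (pw φ k) := by
        rw [e2, ← List.flatMap_append, ← hsplit2]
      rw [h1, List.drop_append, List.drop_eq_nil_of_le le_rfl, Nat.sub_self, List.nil_append,
        List.drop_zero]
      obtain ⟨r, hr⟩ := s1
      exact ⟨r.flatMap (pw φ k), by rw [← hr, List.flatMap_append]⟩
    have hlx := length_flatMap_rv (pw φ k) x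
    refine ⟨x, hxL, hxl, ?_⟩
    rcases le_total q2 q1 with hq | hq
    · refine ⟨q1 - q2, by omega, Or.inl ?_⟩
      have h1 := s3.drop (q1 - q2)
      rw [List.drop_drop] at h1
      have h2 : q2 + (q1 - q2) = q1 := by omega
      rw [h2] at h1
      exact List.prefix_of_prefix_length_le h1 s2 (by rw [List.length_drop]; omega)
    · refine ⟨q2 - q1, by omega, Or.inr ?_⟩
      have h1 := s2.drop (q2 - q1)
      rw [List.drop_drop] at h1
      have h2 : q1 + (q2 - q1) = q2 := by omega
      rw [h2] at h1
      exact List.prefix_of_prefix_length_le h1 s3 (by rw [List.length_drop]; omega)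
  -- pigeonhole on `P`
  refine ⟨k, hk, ?_⟩
  by_contra hcon
  push Not at hcon
  have hA : ∀ P, ∃ N, ∀ x ∈ L, N ≤ x.length →
      ¬ ((x.flatMap (pw φ k)).drop P <+: x.flatMap (rv (pw φ k))) := by
    intro P
    by_contra h
    push Not at h
    exact (hcon P).1 (conj_of_long hL h)
  have hB : ∀ P, ∃ N, ∀ x ∈ L, N ≤ x.length →
      ¬ ((x.flatMap (rv (pw φ k))).drop P <+: x.flatMap (pw φ k)) := by
    intro P
    by_contra h
    push Not at h
    apply (hcon P).2
    rw [pw_rv]
    apply conj_of_long hL
    rw [rv_rv]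
    exact h
  choose NA hNA using hA
  choose NB hNB using hB
  obtain ⟨x, hx, hxl, P, hP, hrel⟩ :=
    main (∑ P ∈ Finset.range (Bm + 1), (NA P + NB P))
  have hsum : NA P + NB P ≤ ∑ P ∈ Finset.range (Bm + 1), (NA P + NB P) :=
    Finset.single_le_sum (f := fun P => NA P + NB P) (fun _ _ => Nat.zero_le _)
      (Finset.mem_range.mpr (by omega))
  rcases hrel with h | h
  · exact hNA P x hx (by omega) h
  · exact hNB P x hx (by omega) h

end Pool.Agent.Helper78.Pal
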